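import Mathlib

/-!
Club guessing: on a well-order of cofinality at least `ℵ₃` there is a family of uncountable subsets
without maximum, indexed by a subset of the order, such that every club set contains one of them.
-/

namespace Pool.Agent.Lib.MP_a264d8_lc

open Cardinal Order Set

/-- A family smaller than the cofinality is strictly bounded. -/
theorem exists_bound {W : Type} [LinearOrder W] {J : Type} (h : #J < Order.cof W) (g : J → W) :
    ∃ w, ∀ j, g j < w := by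
  have h1 : ¬ IsCofinal (range g) := fun hc =>
    absurd (Order.cof_le hc) (not_le.2 (mk_range_le.trans_lt h))
  obtain ⟨w, hw⟩ := not_isCofinal_iff.1 h1
  exact ⟨w, fun j => hw _ ⟨j, rfl⟩⟩

/-- The well-order of type `ω_(n+1)`. -/
abbrev Om (n : ℕ) : Type := (ℵ_ ((n : Ordinal) + 1)).ord.ToType

theorem cof_Om (n : ℕ) : Order.cof (Om n) = ℵ_ ((n : Ordinal) + 1) := by
  rw [Ordinal.cof_toType]
  exact (isRegular_aleph_add_one _).cof_ord

theorem mk_Om (n : ℕ) : #(Om n) = ℵ_ ((n : Ordinal) + 1) := by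
  simp [Om]

theorem mk_Iio_Om (n : ℕ) (z : Om n) : #(Iio z) ≤ ℵ_ (n : Ordinal) := by
  have h := mk_Iio_toType_ord_lt z
  have h2 : #(Iio z) < Order.succ (ℵ_ (n : Ordinal)) := by
    rw [← aleph_add_one]
    exact h
  exact Order.lt_succ_iff.1 h2

theorem aleph_lt_aleph_nat {m n : ℕ} (h : m < n) : ℵ_ (m : Ordinal) < ℵ_ (n : Ordinal) := by
  rw [aleph_lt_aleph]
  exact_mod_cast h

theorem aleph0_lt_Om (n : ℕ) : ℵ₀ < #(Om n) := by
  rw [mk_Om, ← aleph_zero, aleph_lt_aleph]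
  exact_mod_cast Nat.succ_pos n

instance (n : ℕ) : Nonempty (Om n) := by
  rw [← Cardinal.mk_ne_zero_iff]
  exact (aleph0_lt_Om n |>.ne_bot)

instance (n : ℕ) : Uncountable (Om n) := by
  rw [← Cardinal.aleph0_lt_mk_iff]
  exact aleph0_lt_Om n

theorem exists_gt_Om (n : ℕ) (z : Om n) : ∃ w, z < w := by
  have h : #Unit < Order.cof (Om n) := by
    rw [cof_Om, mk_unit]
    exact one_lt_aleph0.trans_le (aleph0_le_aleph _)
  obtain ⟨w, hw⟩ := exists_bound h (fun _ => z)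
  exact ⟨w, hw ()⟩

section Main

attribute [local instance]
  WellFoundedLT.toOrderBot WellFoundedLT.conditionallyCompleteLinearOrderBot

variable {W : Type} [LinearOrder W] [WellFoundedLT W] [Nonempty W]

/-- The largest element of `E ∪ {⊥}` below `b`. -/
noncomputable def proj (E : Set W) (b : W) : W := sSup (E ∩ Iic b)

theorem bdd (E : Set W) (b : W) : BddAbove (E ∩ Iic b) := ⟨b, fun _ hx => hx.2⟩

theorem proj_le (E : Set W) (b : W) : proj E b ≤ b := csSup_le' fun _ hx => hx.2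

theorem proj_anti {E E' : Set W} (h : E' ⊆ E) (b : W) : proj E' b ≤ proj E b :=
  csSup_le' fun _ hx => le_csSup (bdd E b) ⟨h hx.1, hx.2⟩

theorem proj_mono (E : Set W) {b c : W} (h : b ≤ c) : proj E b ≤ proj E c :=
  csSup_le' fun _ hx => le_csSup (bdd E c) ⟨hx.1, hx.2.trans h⟩

theorem le_proj {E : Set W} {e b : W} (he : e ∈ E) (h : e ≤ b) : e ≤ proj E b :=
  le_csSup (bdd E b) ⟨he, h⟩

theorem proj_mem {E : Set W} (hE : IsClub E) {b : W} (h : proj E b ≠ ⊥) : proj E b ∈ E := by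
  have hne : (E ∩ Iic b).Nonempty := by
    rw [Set.nonempty_iff_ne_empty]
    intro h0
    apply h
    rw [proj, h0, csSup_empty]
  exact hE.csSup_mem inter_subset_left hne (bdd E b)

/-- Existence of the decreasing sequence of sets used in the proof. -/
theorem exists_rec {Z : Type} [LinearOrder Z] [WellFoundedLT Z] (G : Set W → Set W) :
    ∃ E : Z → Set W, ∀ z, E z = ⋂ i : Iio z, (E i ∩ G (E i)) := by
  let F : (z : Z) → ((y : Z) → y < z → Set W) → Set W :=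
    fun z r => ⋂ i : Iio z, (r i.1 i.2 ∩ G (r i.1 i.2))
  refine ⟨(wellFounded_lt (α := Z)).fix F, fun z => ?_⟩
  exact (wellFounded_lt (α := Z)).fix_eq F z

/-- The points of `W` that are suprema of strictly increasing `ω₁`-sequences. -/
def S1 (W : Type) [LinearOrder W] : Set W :=
  {a | ∃ c : Om 0 → W, StrictMono c ∧ IsLUB (range c) a}

/-- The modified sequence. -/
def CC (E : Set W) (c : Om 0 → W) : Set W := {x | ∃ i, x = proj E (c i) ∧ x ≠ ⊥}

theorem exists_seq {E : Set W} (hE : IsClub E) (hcof : ℵ_ 3 ≤ Order.cof W) :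
    ∃ c : Om 0 → W, StrictMono c ∧ (∀ i, c i ∈ E) := by
  have hstep : ∀ (i : Om 0) (r : Iio i → W), ∃ e ∈ E, ∀ j, r j < e := by
    intro i r
    have h : #(Iio i) < Order.cof W := by
      refine ((mk_Iio_Om 0 i).trans_lt ?_).trans_le hcof
      exact_mod_cast (aleph_lt_aleph_nat (m := 0) (n := 3) (by norm_num))
    obtain ⟨w, hw⟩ := exists_bound h r
    obtain ⟨e, he, hwe⟩ := hE.isCofinal w
    exact ⟨e, he, fun j => (hw j).trans_le hwe⟩
  choose f hf1 hf2 using hstep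
  let F : (z : Om 0) → ((y : Om 0) → y < z → W) → W := fun z r => f z fun i => r i.1 i.2
  refine ⟨(wellFounded_lt (α := Om 0)).fix F, fun i j hij => ?_, fun i => ?_⟩
  · conv_rhs => rw [(wellFounded_lt (α := Om 0)).fix_eq F j]
    exact hf2 j (fun i => (wellFounded_lt (α := Om 0)).fix F i) ⟨i, hij⟩
  · rw [(wellFounded_lt (α := Om 0)).fix_eq F i]
    exact hf1 _ _

/-- Good points exist for every club. -/
theorem exists_point {E : Set W} (hE : IsClub E) (hcof : ℵ_ 3 ≤ Order.cof W) :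
    ∃ a ∈ S1 W, ∀ b < a, ∃ e ∈ E, b < e ∧ e < a := by
  obtain ⟨c, hc, hcE⟩ := exists_seq hE hcof
  have h1 : #(Om 0) < Order.cof W := by
    rw [mk_Om]
    refine lt_of_lt_of_le ?_ hcof
    rw [aleph_lt_aleph]
    exact_mod_cast (by norm_num : 0 + 1 < 3)
  obtain ⟨w, hw⟩ := exists_bound h1 c
  have hb : BddAbove (range c) := ⟨w, by rintro _ ⟨i, rfl⟩; exact (hw i).le⟩
  have hl : IsLUB (range c) (sSup (range c)) := isLUB_csSup (range_nonempty c) hb
  refine ⟨sSup (range c), ⟨c, hc, hl⟩, fun b hba => ?_⟩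
  obtain ⟨x, ⟨i, rfl⟩, hi⟩ := (lt_isLUB_iff hl).1 hba
  obtain ⟨j, hj⟩ := exists_gt_Om 0 i
  exact ⟨c i, hcE i, hi, (hc hj).trans_le (hl.1 ⟨j, rfl⟩)⟩

/-- **Club guessing.** -/
theorem club_guessing (hcof : ℵ_ 3 ≤ Order.cof W) :
    ∃ (S : Set W) (C : S → Set W), (∀ a, ¬ (C a).Countable) ∧
      (∀ a, ∀ i ∈ C a, ∃ j ∈ C a, i < j) ∧ ∀ D, IsClub D → ∃ a, C a ⊆ D := by
  have hch : ∀ a : S1 W, ∃ c : Om 0 → W, StrictMono c ∧ IsLUB (range c) a.1 := fun a => a.2
  choose c hc1 hc2 using hch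
  have hlt : ∀ a i, c a i < a.1 := by
    intro a i
    obtain ⟨j, hj⟩ := exists_gt_Om 0 i
    exact (hc1 a hj).trans_le ((hc2 a).1 ⟨j, rfl⟩)
  -- a good club
  obtain ⟨E, hE, hgood⟩ : ∃ E : Set W, IsClub E ∧ ∀ D, IsClub D → ∃ a : S1 W,
      (∀ b < a.1, ∃ e ∈ E, b < e ∧ e < a.1) ∧ CC E (c a) ⊆ D := by
    by_contra hcon
    push Not at hcon
    have hcon' : ∀ E : Set W, ∃ D, IsClub D ∧ (IsClub E → ∀ a : S1 W,
        (∀ b < a.1, ∃ e ∈ E, b < e ∧ e < a.1) → ¬ CC E (c a) ⊆ D) := by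
      intro E
      by_cases hE : IsClub E
      · obtain ⟨D, hD1, hD2⟩ := hcon E hE
        exact ⟨D, hD1, fun _ => hD2⟩
      · exact ⟨univ, IsClub.univ, fun h => absurd h hE⟩
    choose G hG1 hG2 using hcon'
    obtain ⟨E, hE⟩ := exists_rec (Z := Om 1) G
    have hcofne : Order.cof W ≠ ℵ₀ := by
      intro h
      rw [h, ← aleph_zero, aleph_le_aleph] at hcof
      exact absurd hcof (by norm_num)
    have hclub : ∀ z, IsClub (E z) := by
      intro z
      induction z using WellFoundedLT.induction with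
      | ind z ih =>
        rw [hE z]
        refine IsClub.iInter hcofne ?_ fun i => (ih i.1 i.2).inter hcofne (hG1 _)
        simp only [Cardinal.lift_id]
        refine ((mk_Iio_Om 1 z).trans_lt ?_).trans_le hcof
        exact_mod_cast (aleph_lt_aleph_nat (m := 1) (n := 3) (by norm_num))
    have hanti : ∀ y z, y < z → E z ⊆ E y ∩ G (E y) := by
      intro y z hyz
      rw [hE z]
      exact iInter_subset (fun i : Iio z => E i ∩ G (E i)) ⟨y, hyz⟩
    have hInf : IsClub (⋂ z, E z) := by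
      refine IsClub.iInter hcofne ?_ hclub
      simp only [Cardinal.lift_id]
      rw [mk_Om]
      refine lt_of_lt_of_le ?_ hcof
      rw [aleph_lt_aleph]
      exact_mod_cast (by norm_num : 1 + 1 < 3)
    obtain ⟨a, haS, ha⟩ := exists_point hInf hcof
    -- stabilization
    have hmin : ∀ i : Om 0, ∃ z : Om 1, ∀ y, proj (E z) (c ⟨a, haS⟩ i) ≤ proj (E y) (c ⟨a, haS⟩ i) := by
      intro i
      obtain ⟨x, ⟨z, hz⟩, hx⟩ := (wellFounded_lt (α := W)).has_min
        (range fun z : Om 1 => proj (E z) (c ⟨a, haS⟩ i)) (range_nonempty _)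
      refine ⟨z, fun y => ?_⟩
      have := hx _ ⟨y, rfl⟩
      rw [not_lt] at this
      rw [← hz] at this
      exact this
    choose zi hzi using hmin
    have hcard : #(Om 0) < Order.cof (Om 1) := by
      rw [mk_Om, cof_Om, aleph_lt_aleph]
      norm_num
    obtain ⟨zs, hzs⟩ := exists_bound hcard zi
    obtain ⟨zp, hzp⟩ := exists_gt_Om 1 zs
    have hstab : ∀ i, proj (E zs) (c ⟨a, haS⟩ i) = proj (E zp) (c ⟨a, haS⟩ i) := by
      intro i
      apply le_antisymm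
      · calc proj (E zs) (c ⟨a, haS⟩ i) ≤ proj (E (zi i)) (c ⟨a, haS⟩ i) :=
              proj_anti ((hanti _ _ (hzs i)).trans inter_subset_left) _
          _ ≤ _ := hzi i zp
      · exact proj_anti ((hanti _ _ hzp).trans inter_subset_left) _
    refine hG2 (E zs) (hclub zs) ⟨a, haS⟩ ?_ ?_
    · intro b hb
      obtain ⟨e, he, h1, h2⟩ := ha b hb
      exact ⟨e, mem_iInter.1 he zs, h1, h2⟩
    · rintro x ⟨i, rfl, hx⟩
      rw [hstab] at hx ⊢
      exact (hanti _ _ hzp (proj_mem (hclub zp) hx)).2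
  refine ⟨{a | ∃ h : a ∈ S1 W, ∀ b < a, ∃ e ∈ E, b < e ∧ e < a},
    fun a => CC E (c ⟨a.1, a.2.choose⟩), ?_, ?_, ?_⟩
  all_goals
    have key : ∀ (a : W) (h : a ∈ S1 W), (∀ b < a, ∃ e ∈ E, b < e ∧ e < a) →
        ∀ b < a, ∃ i, b < proj E (c ⟨a, h⟩ i) := by
      intro a h ha b hb
      obtain ⟨e, he, h1, h2⟩ := ha b hb
      obtain ⟨x, ⟨i, rfl⟩, hi⟩ := (lt_isLUB_iff (hc2 ⟨a, h⟩)).1 h2
      exact ⟨i, h1.trans_le (le_proj he hi.le)⟩
  · rintro ⟨a, hS, ha⟩ hcount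
    change (CC E (c ⟨a, hS⟩)).Countable at hcount
    have h1 : ∀ x : CC E (c ⟨a, hS⟩), ∃ i, x.1 = proj E (c ⟨a, hS⟩ i) := fun x => by
      obtain ⟨i, hi, _⟩ := x.2
      exact ⟨i, hi⟩
    choose ix hix using h1
    have h2 : #(CC E (c ⟨a, hS⟩)) < Order.cof (Om 0) := by
      rw [cof_Om]
      refine lt_of_le_of_lt (le_aleph0_iff_set_countable.2 hcount) ?_
      have := aleph0_lt_Om 0
      rwa [mk_Om] at this
    obtain ⟨j, hj⟩ := exists_bound h2 ix
    obtain ⟨i, hi⟩ := key a hS ha (c ⟨a, hS⟩ j) (hlt _ j)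
    have hmem : proj E (c ⟨a, hS⟩ i) ∈ CC E (c ⟨a, hS⟩) :=
      ⟨i, rfl, (bot_le.trans_lt hi).ne'⟩
    have h3 := hj ⟨_, hmem⟩
    have h4 := hix ⟨_, hmem⟩
    have h5 : proj E (c ⟨a, hS⟩ i) ≤ c ⟨a, hS⟩ j := by
      calc proj E (c ⟨a, hS⟩ i) = proj E (c ⟨a, hS⟩ (ix ⟨_, hmem⟩)) := h4
        _ ≤ c ⟨a, hS⟩ (ix ⟨_, hmem⟩) := proj_le _ _
        _ ≤ c ⟨a, hS⟩ j := ((hc1 ⟨a, hS⟩) h3).le
    exact absurd hi (not_lt.2 h5)
  · rintro ⟨a, hS, ha⟩ x ⟨i, rfl, hx⟩
    obtain ⟨j, hj⟩ := key a hS ha (proj E (c ⟨a, hS⟩ i)) ((proj_le _ _).trans_lt (hlt _ i))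
    exact ⟨proj E (c ⟨a, hS⟩ j), ⟨j, rfl, (bot_le.trans_lt hj).ne'⟩, hj⟩
  · intro D hD
    obtain ⟨a, ha, haD⟩ := hgood D hD
    exact ⟨⟨a.1, a.2, ha⟩, haD⟩

end Main

end Pool.Agent.Lib.MP_a264d8_lc
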