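import Pool.Agent.Lib.MP_a264d8_lc.CG

/-!
The combinatorial core: an obedient sequence of functions that is increasing modulo a filter cannot
take, on a cofinal subset of a set `Y` of ordinals that is closed under small bounds, all its values
in one countable set.
-/

namespace Pool.Agent.Lib.MP_a264d8_lc

open Cardinal Order Set Filter

attribute [local instance]
  WellFoundedLT.toOrderBot WellFoundedLT.conditionallyCompleteLinearOrderBot

section Cont

variable {W : Type} [LinearOrder W]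

/-- The continuous sequence attached to a strictly increasing one. -/
noncomputable def cont (u : W → Ordinal.{0}) (w : W) : Ordinal.{0} := ⨆ v : Iio w, (u v + 1)

theorem lt_cont (u : W → Ordinal.{0}) {v w : W} (h : v < w) : u v < cont u w := by
  have h1 : u v + 1 ≤ cont u w := Ordinal.le_iSup (fun v : Iio w => u v + 1) ⟨v, h⟩
  exact (lt_add_one _).trans_le h1

theorem cont_le {u : W → Ordinal.{0}} (hu : StrictMono u) (w : W) : cont u w ≤ u w := by
  apply Ordinal.iSup_le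
  intro v
  exact Order.add_one_le_of_lt (hu v.2)

theorem cont_strictMono {u : W → Ordinal.{0}} (hu : StrictMono u) : StrictMono (cont u) :=
  fun v _ h => (cont_le hu v).trans_lt (lt_cont u h)

theorem cont_isLUB {u : W → Ordinal.{0}} (hu : StrictMono u) {t : Set W} {w : W}
    (h : IsLUB t w) : IsLUB (cont u '' t) (cont u w) := by
  constructor
  · rintro _ ⟨s, hs, rfl⟩
    exact (cont_strictMono hu).monotone (h.1 hs)
  · intro b hb
    apply Ordinal.iSup_le
    rintro ⟨v, hv⟩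
    obtain ⟨s, hs, hvs⟩ := (lt_isLUB_iff h).1 hv
    exact (Order.add_one_le_of_lt (lt_cont u hvs)).trans (hb ⟨s, hs, rfl⟩)

theorem cont_closed [WellFoundedLT W] {u : W → Ordinal.{0}} (hu : StrictMono u) {t : Set Ordinal.{0}}
    (ht : t ⊆ range (cont u)) (hne : t.Nonempty) {b : Ordinal.{0}} (hb : IsLUB t b)
    (hlt : ∃ w, b < cont u w) : b ∈ range (cont u) := by
  obtain ⟨w, hw⟩ := hlt
  have : Nonempty W := ⟨w⟩
  have hs : (cont u ⁻¹' t).Nonempty := by
    obtain ⟨x, hx⟩ := hne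
    obtain ⟨v, rfl⟩ := ht hx
    exact ⟨v, hx⟩
  have hbd : BddAbove (cont u ⁻¹' t) := by
    refine ⟨w, fun v hv => ?_⟩
    have h1 : cont u v ≤ b := hb.1 hv
    exact ((cont_strictMono hu).lt_iff_lt.1 (h1.trans_lt hw)).le
  have h1 := cont_isLUB hu (isLUB_csSup hs hbd)
  rw [image_preimage_eq_of_subset ht] at h1
  exact ⟨_, h1.unique hb⟩

end Cont

section Club

variable {W : Type} [LinearOrder W] [WellFoundedLT W] [Nonempty W]

/-- Two continuous sequences with the same supremum agree on a club. -/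
theorem isClub_meet (hW : ℵ₀ < Order.cof W) {u : W → Ordinal.{0}} (hu : StrictMono u)
    {E : Set Ordinal.{0}} (hE : ∀ e ∈ E, ∃ w, e < cont u w) (hE2 : ∀ w, ∃ e ∈ E, cont u w < e)
    (hcl : ∀ t ⊆ E, t.Nonempty → ∀ b, IsLUB t b → (∃ w, b < cont u w) → b ∈ E) :
    IsClub {w | cont u w ∈ E} := by
  have hnomax : ∀ w : W, ∃ v, w < v := by
    intro w
    have h : #Unit < Order.cof W := by
      rw [mk_unit]; exact one_lt_aleph0.trans hW
    obtain ⟨v, hv⟩ := exists_bound h (fun _ => w)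
    exact ⟨v, hv ()⟩
  constructor
  · rw [dirSupClosed_iff_of_linearOrder]
    intro t ht hne w hw
    refine hcl (cont u '' t) ?_ (hne.image _) _ (cont_isLUB hu hw) ?_
    · rintro _ ⟨v, hv, rfl⟩
      exact ht hv
    · obtain ⟨v, hv⟩ := hnomax w
      exact ⟨v, cont_strictMono hu hv⟩
  · intro w0
    have hN : ∀ w, ∃ v, ∃ e ∈ E, cont u w < e ∧ e < cont u v := by
      intro w
      obtain ⟨e, he, h1⟩ := hE2 w
      obtain ⟨v, hv⟩ := hE e he
      exact ⟨v, e, he, h1, hv⟩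
    choose N e he h1 h2 using hN
    let s : ℕ → W := fun n => N^[n] w0
    have hs : ∀ n, s (n + 1) = N (s n) := fun n => Function.iterate_succ_apply' N n w0
    have hcard : #ℕ < Order.cof W := by simpa using hW
    obtain ⟨b, hb⟩ := exists_bound hcard s
    have hl : IsLUB (range s) (sSup (range s)) :=
      isLUB_csSup (range_nonempty _) ⟨b, by rintro _ ⟨n, rfl⟩; exact (hb n).le⟩
    have hl2 := cont_isLUB hu hl
    refine ⟨sSup (range s), ?_, hl.1 ⟨0, rfl⟩⟩
    refine hcl (range fun n => e (s n)) ?_ (range_nonempty _) _ ?_ ?_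
    · rintro _ ⟨n, rfl⟩
      exact he _
    · constructor
      · rintro _ ⟨n, rfl⟩
        refine (h2 (s n)).le.trans ?_
        rw [← hs n]
        exact hl2.1 ⟨_, ⟨n + 1, rfl⟩, rfl⟩
      · intro b hb
        refine hl2.2 ?_
        rintro _ ⟨_, ⟨n, rfl⟩, rfl⟩
        exact (h1 (s n)).le.trans (hb ⟨n, rfl⟩)
    · obtain ⟨v, hv⟩ := hnomax (sSup (range s))
      exact ⟨v, cont_strictMono hu hv⟩

end Club

/-- Restriction of a function to an initial segment. -/
noncomputable def trunc {W : Type} [LinearOrder W] (x : W → Ordinal.{0}) (j : W) : W → Ordinal.{0} :=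
  fun i => if i ≤ j then x i else 0

theorem trunc_apply {W : Type} [LinearOrder W] (x : W → Ordinal.{0}) {i j : W} (h : i ≤ j) :
    trunc x j i = x i := by
  unfold trunc
  rw [if_pos h]

/-- Recursion: a function `u` such that `u j` is obtained by `P` from the restriction of `cont u`
to the elements up to `j`. -/
theorem exists_rec_cont {W : Type} [LinearOrder W] [WellFoundedLT W]
    (P : W → (W → Ordinal.{0}) → Ordinal.{0}) :
    ∃ u : W → Ordinal.{0}, ∀ j, u j = P j (trunc (cont u) j) := by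
  let F : (z : W) → ((y : W) → y < z → Ordinal.{0}) → Ordinal.{0} := fun z r =>
    P z (trunc (fun w => ⨆ v : Iio w, (if h : v.1 < z then r v.1 h else 0) + 1) z)
  refine ⟨(wellFounded_lt (α := W)).fix F, fun j => ?_⟩
  rw [(wellFounded_lt (α := W)).fix_eq F j]
  change P j _ = P j _
  congr 1
  funext i
  unfold trunc
  split_ifs with hi
  · unfold cont
    beta_reduce
    refine iSup_congr fun v => ?_
    rw [dif_pos (lt_of_lt_of_le v.2 hi)]
  · rfl

/-- **The core.** -/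
theorem core {W ι : Type} [LinearOrder W] [WellFoundedLT W] [Nonempty W] (hW : ℵ₀ < Order.cof W)
    (C : ι → Set W) (hC1 : ∀ a, ¬ (C a).Countable) (hC2 : ∀ a, ∀ i ∈ C a, ∃ j ∈ C a, i < j)
    (hC3 : ∀ D, IsClub D → ∃ a, C a ⊆ D)
    (Y : Set Ordinal.{0}) (hY : Y.Nonempty)
    (hYW : ∀ g : W → Ordinal.{0}, (∀ j, ∃ y ∈ Y, g j < y) → ∃ y ∈ Y, ∀ j, g j < y)
    (hYi : ∀ g : ι → Ordinal.{0}, (∀ j, ∃ y ∈ Y, g j < y) → ∃ y ∈ Y, ∀ j, g j < y)
    (f : Ordinal.{0} → ℕ → Ordinal.{0}) (F : Filter ℕ) [F.NeBot]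
    (hinc : ∀ ξ η, ξ < η → (∃ y ∈ Y, η < y) → ∀ᶠ i in F, f ξ i < f η i)
    (hob : ∀ δ : Ordinal.{0}, (∃ y ∈ Y, δ < y) →
      (∃ x : W → Ordinal.{0}, StrictMono x ∧ δ = ⨆ j, x j) →
      ∃ E : Set Ordinal.{0}, (∀ e ∈ E, e < δ) ∧ (∀ b < δ, ∃ e ∈ E, b < e) ∧
        (∀ t ⊆ E, t.Nonempty → ∀ b, IsLUB t b → b < δ → b ∈ E) ∧
        ∀ᶠ i in F, ∀ e ∈ E, f e i ≤ f δ i)
    (U : Set Ordinal.{0}) (hUY : U ⊆ Y) (hU : ∀ y ∈ Y, ∃ u ∈ U, y < u)
    (T : Set Ordinal.{0}) (hT : T.Countable) (hfT : ∀ u ∈ U, ∀ i, f u i ∈ T) : False := by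
  classical
  have hnomax : ∀ w : W, ∃ v, w < v := by
    intro w
    have h : #Unit < Order.cof W := by
      rw [mk_unit]; exact one_lt_aleph0.trans hW
    obtain ⟨v, hv⟩ := exists_bound h (fun _ => w)
    exact ⟨v, hv ()⟩
  -- one step
  have hstep : ∀ (x : W → Ordinal.{0}) (j : W), (∃ y ∈ Y, x j < y) → ∃ u ∈ U, x j < u ∧
      ∀ a, (∃ η, (∃ y ∈ Y, η < y) ∧ ∀ᶠ i in F, ∀ j' ∈ C a, j' ≤ j → f (x j') i < f η i) →
        ∀ᶠ i in F, ∀ j' ∈ C a, j' ≤ j → f (x j') i < f u i := by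
    intro x j hx
    have h1 : ∀ a, ∃ η, (∃ y ∈ Y, η < y) ∧
        ((∃ η, (∃ y ∈ Y, η < y) ∧ ∀ᶠ i in F, ∀ j' ∈ C a, j' ≤ j → f (x j') i < f η i) →
          ∀ᶠ i in F, ∀ j' ∈ C a, j' ≤ j → f (x j') i < f η i) := by
      intro a
      by_cases h : ∃ η, (∃ y ∈ Y, η < y) ∧ ∀ᶠ i in F, ∀ j' ∈ C a, j' ≤ j → f (x j') i < f η i
      · obtain ⟨η, h2, h3⟩ := h
        exact ⟨η, h2, fun _ => h3⟩
      · exact ⟨x j, hx, fun h' => absurd h' h⟩
    choose η hη1 hη2 using h1
    obtain ⟨y, hy, hyη⟩ := hYi η hη1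
    obtain ⟨y', hy', hxy'⟩ := hx
    obtain ⟨u, hu, hyu⟩ := hU (max y y') (by rcases max_choice y y' with h | h <;> rw [h] <;> assumption)
    refine ⟨u, hu, hxy'.trans_le ((le_max_right _ _).trans hyu.le), fun a ha => ?_⟩
    have h2 := hη2 a ha
    have hlt : η a < u := (hyη a).trans_le ((le_max_left _ _).trans hyu.le)
    obtain ⟨u', hu', huu'⟩ := hU u (hUY hu)
    have h3 := hinc (η a) u hlt ⟨u', hUY hu', huu'⟩
    filter_upwards [h2, h3] with i hi hi' j' hj' hjj'
    exact (hi j' hj' hjj').trans hi'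
  -- the recursion
  let P : W → (W → Ordinal.{0}) → Ordinal.{0} := fun j x =>
    if h : ∃ y ∈ Y, x j < y then (hstep x j h).choose else 0
  obtain ⟨u, hu⟩ := exists_rec_cont P
  have hP : ∀ j, (∃ y ∈ Y, cont u j < y) → u j ∈ U ∧ cont u j < u j ∧
      ∀ a, (∃ η, (∃ y ∈ Y, η < y) ∧ ∀ᶠ i in F, ∀ j' ∈ C a, j' ≤ j → f (cont u j') i < f η i) →
        ∀ᶠ i in F, ∀ j' ∈ C a, j' ≤ j → f (cont u j') i < f (u j) i := by
    intro j hj
    have hj' : ∃ y ∈ Y, trunc (cont u) j j < y := by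
      rw [trunc_apply _ le_rfl]; exact hj
    have h1 := (hstep (trunc (cont u) j) j hj').choose_spec
    have h2 : u j = (hstep (trunc (cont u) j) j hj').choose := by
      rw [hu j]
      exact dif_pos hj'
    rw [← h2, trunc_apply _ le_rfl] at h1
    obtain ⟨h3, h4, h5⟩ := h1
    refine ⟨h3, h4, fun a ha => ?_⟩
    have h6 := h5 a (by
      obtain ⟨η, hη, h7⟩ := ha
      refine ⟨η, hη, ?_⟩
      filter_upwards [h7] with i hi j' hj' hjj'
      rw [trunc_apply _ hjj']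
      exact hi j' hj' hjj')
    filter_upwards [h6] with i hi j' hj' hjj'
    have := hi j' hj' hjj'
    rwa [trunc_apply _ hjj'] at this
  have hYnomax : ∀ y ∈ Y, ∃ y' ∈ Y, y < y' := fun y hy => by
    obtain ⟨u, hu, h⟩ := hU y hy
    exact ⟨u, hUY hu, h⟩
  obtain ⟨y0, hy0⟩ := hY
  have hB : ∀ j, ∃ y ∈ Y, cont u j < y := by
    intro j
    induction j using WellFoundedLT.induction with
    | ind j ih =>
      obtain ⟨y, hy, hyb⟩ := hYW (fun v => if v < j then u v + 1 else 0) (by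
        intro v
        by_cases hv : v < j
        · obtain ⟨h1, -, -⟩ := hP v (ih v hv)
          obtain ⟨y', hy', h2⟩ := hYnomax _ (hUY h1)
          obtain ⟨y'', hy'', h3⟩ := hYnomax _ hy'
          refine ⟨y'', hy'', ?_⟩
          rw [if_pos hv]
          exact (Order.add_one_le_of_lt h2).trans_lt h3
        · obtain ⟨y'', hy'', h3⟩ := hYnomax _ hy0
          refine ⟨y'', hy'', ?_⟩
          rw [if_neg hv]
          exact (zero_le).trans_lt h3)
      obtain ⟨y', hy', hyy'⟩ := hYnomax y hy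
      refine ⟨y', hy', lt_of_le_of_lt ?_ hyy'⟩
      apply Ordinal.iSup_le
      rintro ⟨v, hv⟩
      have := hyb v
      rw [if_pos (show v < j from hv)] at this
      exact this.le
  have hu1 : ∀ j, u j ∈ U := fun j => (hP j (hB j)).1
  have hu2 : ∀ j, cont u j < u j := fun j => (hP j (hB j)).2.1
  have humono : StrictMono u := fun i j hij => (lt_cont u hij).trans (hu2 j)
  have hcmono := cont_strictMono humono
  -- the supremum
  have hsupB : ∃ y ∈ Y, (⨆ j, cont u j) < y := by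
    obtain ⟨y, hy, hyb⟩ := hYW (cont u) hB
    obtain ⟨y', hy', hyy'⟩ := hYnomax y hy
    exact ⟨y', hy', (Ordinal.iSup_le fun j => (hyb j).le).trans_lt hyy'⟩
  obtain ⟨E, hE1, hE2, hE3, hE4⟩ := hob _ hsupB ⟨cont u, hcmono, rfl⟩
  have hlt : ∀ j, cont u j < ⨆ j, cont u j := by
    intro j
    obtain ⟨v, hv⟩ := hnomax j
    exact (hcmono hv).trans_le (Ordinal.le_iSup (cont u) v)
  have hclub : IsClub {w | cont u w ∈ E} := by
    apply isClub_meet hW humono
    · intro e he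
      have := hE1 e he
      rwa [Ordinal.lt_iSup_iff] at this
    · intro w
      exact hE2 _ (hlt w)
    · intro t ht hne b hb hw
      refine hE3 t ht hne b hb ?_
      obtain ⟨w, hw⟩ := hw
      exact hw.trans (hlt w)
  obtain ⟨a, ha⟩ := hC3 _ hclub
  -- every member of `C a` is bounded
  have hbd : ∀ j ∈ C a, ∀ᶠ i in F, ∀ j' ∈ C a, j' ≤ j → f (cont u j') i < f (u j) i := by
    intro j hj
    apply (hP j (hB j)).2.2 a
    refine ⟨(⨆ j, cont u j) + 1, ?_, ?_⟩
    · obtain ⟨y, hy, hyb⟩ := hsupB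
      obtain ⟨y', hy', hyy'⟩ := hYnomax y hy
      exact ⟨y', hy', (Order.add_one_le_of_lt hyb).trans_lt hyy'⟩
    · have h1 := hinc (⨆ j, cont u j) ((⨆ j, cont u j) + 1) (lt_add_one _) (by
        obtain ⟨y, hy, hyb⟩ := hsupB
        obtain ⟨y', hy', hyy'⟩ := hYnomax y hy
        exact ⟨y', hy', (Order.add_one_le_of_lt hyb).trans_lt hyy'⟩)
      filter_upwards [h1, hE4] with i hi hi' j' hj' _
      exact (hi' _ (ha hj')).trans_lt hi
  -- successors in `C a`
  have hsucc : ∀ j ∈ C a, ∃ k ∈ C a, j < k ∧ ∀ l ∈ C a, j < l → k ≤ l := by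
    intro j hj
    obtain ⟨k, hk1, hk2⟩ := (wellFounded_lt (α := W)).has_min {k | k ∈ C a ∧ j < k} (hC2 a j hj)
    refine ⟨k, hk1.1, hk1.2, fun l hl hjl => ?_⟩
    exact not_lt.1 (hk2 l ⟨hl, hjl⟩)
  choose! s hs1 hs2 hs3 using hsucc
  have hidx : ∀ j ∈ C a, ∃ i, (∀ j' ∈ C a, j' ≤ j → f (cont u j') i < f (u j) i) ∧
      f (u j) i < f (cont u (s j)) i := by
    intro j hj
    have h1 := hinc (u j) (cont u (s j)) (lt_cont u (hs2 j hj)) (hB _)
    exact ((hbd j hj).and h1).exists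
  choose! idx hidx1 hidx2 using hidx
  -- pigeonhole
  have hcover : C a ⊆ ⋃ n : ℕ, {j | j ∈ C a ∧ idx j = n} := fun j hj =>
    mem_iUnion.2 ⟨idx j, hj, rfl⟩
  obtain ⟨n, hn⟩ : ∃ n : ℕ, ¬ ({j | j ∈ C a ∧ idx j = n}).Countable := by
    by_contra hcon
    push Not at hcon
    exact hC1 a ((countable_iUnion hcon).mono hcover)
  apply hn
  refine Set.MapsTo.countable_of_injOn (f := fun j => f (u j) n) (t := T) ?_ ?_ hT
  · intro j _
    exact hfT _ (hu1 j) n
  · have hmono : ∀ j ∈ {j | j ∈ C a ∧ idx j = n}, ∀ l ∈ {j | j ∈ C a ∧ idx j = n}, j < l →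
        f (u j) n < f (u l) n := by
      rintro j ⟨hj, hjn⟩ l ⟨hl, hln⟩ hjl
      have h1 := hidx2 j hj
      rw [hjn] at h1
      have h2 := hidx1 l hl (s j) (hs1 j hj) (hs3 j hj l hl hjl)
      rw [hln] at h2
      exact h1.trans h2
    intro j hj l hl hjl
    rcases lt_trichotomy j l with h | h | h
    · exact absurd hjl (hmono j hj l hl h).ne
    · exact h
    · exact absurd hjl (hmono l hl j hj h).ne'

end Pool.Agent.Lib.MP_a264d8_lc
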