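import Pool.Agent.Lib.MP_a264d8_lc.Scale

/-!
Covering countable subsets of a set of size `ℵ_m`, unions and fibres.
-/

namespace Pool.Agent.Lib.MP_a264d8_lc

open Cardinal Order Set Ordinal

/-- A union of at most `ℵ_m` sets of size at most `ℵ_m`. -/
theorem iUnion_le {α J : Type} {m : ℕ} (hJ : #J ≤ ℵ_ (m : Ordinal)) (f : J → Set α)
    (hf : ∀ j, #(f j) ≤ ℵ_ (m : Ordinal)) : #(⋃ j, f j) ≤ ℵ_ (m : Ordinal) := by
  calc #(⋃ j, f j) ≤ #J * ⨆ j, #(f j) := mk_iUnion_le f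
    _ ≤ ℵ_ (m : Ordinal) * ℵ_ (m : Ordinal) := mul_le_mul' hJ (ciSup_le' hf)
    _ = ℵ_ (m : Ordinal) := mul_eq_self (aleph0_le_aleph _)

/-- A set of size greater than `ℵ_m` mapped to a type of size `ℵ_m` has a large fibre. -/
theorem exists_fibre {α J : Type} {m : ℕ} (hJ : #J ≤ ℵ_ (m : Ordinal)) (A : Set α)
    (hA : ℵ_ (m : Ordinal) < #A) (R : α → J → Prop) (hR : ∀ x ∈ A, ∃ j, R x j) :
    ∃ j, ℵ_ (m : Ordinal) < #{x | x ∈ A ∧ R x j} := by
  by_contra hcon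
  push Not at hcon
  have h1 := iUnion_le hJ (fun j => {x | x ∈ A ∧ R x j}) hcon
  refine absurd (hA.trans_le ?_) (not_lt.2 h1)
  apply mk_le_mk_of_subset
  intro x hx
  obtain ⟨j, hj⟩ := hR x hx
  exact mem_iUnion.2 ⟨j, hx, hj⟩

/-- Covering: a set of size at most `ℵ_m` has a family of at most `ℵ_m` countable sets such that
every sequence in the set lies in one of them. -/
theorem cover (m : ℕ) : ∀ (α : Type) (A : Set α), #A ≤ ℵ_ (m : Ordinal) →
    ∃ (I : Type) (c : I → Set α), #I ≤ ℵ_ (m : Ordinal) ∧ (∀ i, (c i).Countable) ∧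
      ∀ g : ℕ → α, (∀ n, g n ∈ A) → ∃ i, ∀ n, g n ∈ c i := by
  induction m with
  | zero =>
    intro α A hA
    refine ⟨Unit, fun _ => A, ?_, ?_, fun g hg => ⟨(), hg⟩⟩
    · rw [mk_unit]
      exact (one_lt_aleph0.trans_le (aleph0_le_aleph _)).le
    · intro _
      rw [← le_aleph0_iff_set_countable]
      simpa using hA
  | succ m ih =>
    intro α A hA
    push_cast at hA ⊢
    rw [← mk_Om m] at hA
    obtain ⟨j⟩ : Nonempty (A ↪ Om m) := hA
    have h1 : ∀ z : Om m, #{x | ∃ h : x ∈ A, j ⟨x, h⟩ < z} ≤ ℵ_ (m : Ordinal) := by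
      intro z
      refine le_trans ?_ (mk_Iio_Om m z)
      refine mk_le_of_injective (f := fun x : {x | ∃ h : x ∈ A, j ⟨x, h⟩ < z} =>
        (⟨j ⟨x.1, x.2.choose⟩, x.2.choose_spec⟩ : Iio z)) ?_
      intro x y hxy
      have h2 : j ⟨x.1, x.2.choose⟩ = j ⟨y.1, y.2.choose⟩ := congrArg Subtype.val hxy
      have h3 := j.injective h2
      exact Subtype.ext (congrArg (fun a : A => a.1) h3)
    choose I c hI hc hg using fun z => ih α _ (h1 z)
    refine ⟨Σ z, I z, fun p => c p.1 p.2, ?_, fun p => hc p.1 p.2, ?_⟩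
    · rw [mk_sigma]
      calc (Cardinal.sum fun z => #(I z)) ≤ #(Om m) * ⨆ z, #(I z) := sum_le_mk_mul_iSup _
        _ ≤ ℵ_ ((m : Ordinal) + 1) * ℵ_ ((m : Ordinal) + 1) := by
          refine mul_le_mul' (mk_Om m).le (ciSup_le' fun z => (hI z).trans ?_)
          rw [aleph_le_aleph]
          exact le_self_add
        _ = ℵ_ ((m : Ordinal) + 1) := mul_eq_self (aleph0_le_aleph _)
    · intro g hgA
      have h2 : #ℕ < Order.cof (Om m) := by
        rw [cof_Om, mk_nat, ← aleph_zero, aleph_lt_aleph]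
        exact_mod_cast Nat.succ_pos m
      obtain ⟨z, hz⟩ := exists_bound h2 (fun n => j ⟨g n, hgA n⟩)
      obtain ⟨i, hi⟩ := hg z g fun n => ⟨hgA n, hz n⟩
      exact ⟨⟨z, i⟩, hi⟩

/-- The number of sequences in a set of size at most `ℵ_m`, if the continuum is at most `ℵ_m`. -/
theorem card_seq_le {m : ℕ} (hc : 2 ^ ℵ₀ ≤ ℵ_ (m : Ordinal.{0})) {α : Type}
    (hA : #α ≤ ℵ_ (m : Ordinal)) : #(ℕ → α) ≤ ℵ_ (m : Ordinal) := by
  obtain ⟨I, c, hI, hcc, hg⟩ := cover m α univ (by rwa [mk_univ])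
  have h1 : #(univ : Set (ℕ → α)) ≤ ℵ_ (m : Ordinal) := by
    have h2 : (univ : Set (ℕ → α)) = ⋃ i, {g | ∀ n, g n ∈ c i} := by
      ext g
      simp only [mem_univ, mem_iUnion, mem_setOf_eq, true_iff]
      exact hg g fun n => mem_univ _
    rw [h2]
    refine iUnion_le hI _ fun i => ?_
    refine le_trans ?_ hc
    have h3 : #{g : ℕ → α | ∀ n, g n ∈ c i} ≤ #(ℕ → c i) :=
      mk_le_of_injective (f := fun g : {g : ℕ → α | ∀ n, g n ∈ c i} => fun n => (⟨g.1 n, g.2 n⟩ : c i))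
        (fun g g' h => Subtype.ext (funext fun n => congrArg Subtype.val (congrFun h n)))
    refine h3.trans ?_
    have h4 : #(c i) ≤ ℵ₀ := le_aleph0_iff_set_countable.2 (hcc i)
    calc #(ℕ → c i) = #(c i) ^ #ℕ := by simp
      _ ≤ ℵ₀ ^ ℵ₀ := by
        rw [mk_nat]
        exact Cardinal.power_le_power_right h4
      _ = 2 ^ ℵ₀ := by rw [Cardinal.power_self_eq le_rfl]
  rwa [mk_univ] at h1

end Pool.Agent.Lib.MP_a264d8_lc
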