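import Mathlib

/-!
Definitions: Chang's Conjecture for a pair of pairs of cardinals, and the cofinality of the
ultraproduct `∏ ω_i / U`.
-/

namespace Pool.Agent.Lib.MP_a264d8_lc

open Cardinal Ordinal FirstOrder

/-- Chang's Conjecture `(κ, lam) ↠ (μ, ν)`: every structure whose universe is `κ` (the canonical
well-order `κ.ord.ToType`, in which `x` stands for the ordinal `typein (· < ·) x`), in a countable
first-order language with a unary predicate `P` interpreted as `lam` (the set of the ordinals below
`lam`), has an elementary substructure `X` with `|X| = μ` and `|X ∩ lam| = ν`. -/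
def ChangConj (κ lam μ ν : Cardinal.{0}) : Prop :=
  ∀ (L : FirstOrder.Language.{0, 0}) (P : L.Relations 1) (_ : L.Structure κ.ord.ToType),
    L.card ≤ ℵ₀ →
    (∀ x : κ.ord.ToType, FirstOrder.Language.Structure.RelMap P ![x] ↔ typein (α := κ.ord.ToType) (· < ·) x < lam.ord) →
    ∃ X : L.ElementarySubstructure κ.ord.ToType,
      #X = μ ∧ #{x : X // typein (α := κ.ord.ToType) (· < ·) (x : κ.ord.ToType) < lam.ord} = ν

/-- The cofinality of the ultraproduct `∏ ω_i / U` (`i < ω`), where the `i`-th factor is the
well-order of type `ω_i`: the least size of a family of functions that is cofinal modulo `U`. -/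
noncomputable def ultraCof (U : Ultrafilter ℕ) : Cardinal.{0} :=
  sInf {c | ∃ F : Set (∀ i : ℕ, (ℵ_ (i : Ordinal.{0})).ord.ToType), #F = c ∧
    ∀ g : ∀ i : ℕ, (ℵ_ (i : Ordinal.{0})).ord.ToType, ∃ f ∈ F, ∀ᶠ i in (U : Filter ℕ), g i ≤ f i}

end Pool.Agent.Lib.MP_a264d8_lc
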