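import Pool.Agent.Lib.MP_a264d8_lc.Defs

/-!
From Chang's Conjecture to a set closed under countably many given functions.
-/

namespace Pool.Agent.Lib.MP_a264d8_lc

open Cardinal Ordinal FirstOrder

/-- Function symbols: countably many unary ones and a binary one. -/
inductive Fn : ℕ → Type
  | un (j : ℕ) : Fn 1
  | bin : Fn 2

/-- One unary relation symbol. -/
inductive Rl : ℕ → Type
  | pr : Rl 1

/-- The language. -/
def Lg : FirstOrder.Language.{0, 0} := ⟨Fn, Rl⟩

theorem card_Lg : Lg.card ≤ ℵ₀ := by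
  have h1 : Countable (Σ l, Fn l) := by
    let e : (Σ l, Fn l) → ℕ := fun p => match p with
      | ⟨_, Fn.un j⟩ => j + 1
      | ⟨_, Fn.bin⟩ => 0
    refine Function.Injective.countable (f := e) ?_
    rintro ⟨_, a⟩ ⟨_, b⟩ h
    cases a with
    | un j =>
      cases b with
      | un k =>
        have : j + 1 = k + 1 := h
        have : j = k := by omega
        subst this
        rfl
      | bin => exact absurd (show j + 1 = 0 from h) (Nat.succ_ne_zero j)
    | bin =>
      cases b with
      | un k => exact absurd (show 0 = k + 1 from h).symm (Nat.succ_ne_zero k)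
      | bin => rfl
  have h2 : Countable (Σ l, Rl l) := by
    refine Function.Injective.countable (f := fun _ => (0 : ℕ)) ?_
    rintro ⟨_, a⟩ ⟨_, b⟩ _
    cases a
    cases b
    rfl
  change #((Σ l, Fn l) ⊕ (Σ l, Rl l)) ≤ ℵ₀
  exact mk_le_aleph0

/-- The structure. -/
def strLg {M : Type} (u : ℕ → M → M) (b : M → M → M) (P : M → Prop) : Lg.Structure M where
  funMap := fun {n} f => match n, f with
    | _, Fn.un j => fun v => u j (v 0)
    | _, Fn.bin => fun v => b (v 0) (v 1)
  RelMap := fun {n} r => match n, r with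
    | _, Rl.pr => fun v => P (v 0)

theorem exists_closed {κ lam μ ν : Cardinal.{0}} (h : ChangConj κ lam μ ν)
    (u : ℕ → κ.ord.ToType → κ.ord.ToType)
    (b : κ.ord.ToType → κ.ord.ToType → κ.ord.ToType) :
    ∃ X : Set κ.ord.ToType, #X = μ ∧
      #{x | x ∈ X ∧ typein (α := κ.ord.ToType) (· < ·) x < lam.ord} = ν ∧
      (∀ j, ∀ x ∈ X, u j x ∈ X) ∧ (∀ x ∈ X, ∀ y ∈ X, b x y ∈ X) := by
  letI str := strLg u b (fun x => typein (α := κ.ord.ToType) (· < ·) x < lam.ord)
  obtain ⟨X, hX1, hX2⟩ := h Lg (Rl.pr : Lg.Relations 1) str card_Lg (fun x => Iff.rfl)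
  refine ⟨X, hX1, ?_, ?_, ?_⟩
  · rw [← hX2]
    refine mk_congr ⟨fun x => ⟨⟨x.1, x.2.1⟩, x.2.2⟩, fun x => ⟨x.1.1, x.1.2, x.2⟩, ?_, ?_⟩
    · intro x; rfl
    · intro x; rfl
  · intro j x hx
    have := X.toSubstructure.fun_mem (Fn.un j : Lg.Functions 1) ![x] (by
      intro i
      have : i = 0 := Subsingleton.elim _ _
      subst this
      exact hx)
    exact this
  · intro x hx y hy
    have := X.toSubstructure.fun_mem (Fn.bin : Lg.Functions 2) ![x, y] (by
      intro i
      fin_cases i
      · exact hx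
      · exact hy)
    exact this

end Pool.Agent.Lib.MP_a264d8_lc
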