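import Pool.Agent.Lib.MP_a264d8_lc.Cover
import Pool.Agent.Lib.MP_a264d8_lc.Pull

/-!
Jumps: a set witnessing Chang's Conjecture at `ℵ_(ω+ω)` grows in size, beyond every `ℵ_m`, between
two consecutive cardinals `ℵ_(ω+k)` and `ℵ_(ω+k+1)`.
-/

namespace Pool.Agent.Lib.MP_a264d8_lc

open Cardinal Order Set Ordinal

/-- The universe. -/
abbrev MM : Type := (ℵ_ ((ω : Ordinal.{0}) + ω)).ord.ToType

/-- The ordinal represented by an element of the universe. -/
noncomputable def tau (x : MM) : Ordinal.{0} := typein (α := MM) (· < ·) x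

theorem type_MM : type (α := MM) (· < ·) = ω_ (ω + ω) := by
  rw [type_toType, ord_aleph]

theorem tau_lt (x : MM) : tau x < ω_ (ω + ω) := by
  rw [← type_MM]
  exact typein_lt_type _ x

theorem tau_inj {x y : MM} (h : tau x = tau y) : x = y := (typein_inj _).1 h

theorem tau_lt_tau {x y : MM} : tau x < tau y ↔ x < y := typein_lt_typein _

instance : Nonempty MM := by
  rw [← Cardinal.mk_ne_zero_iff, mk_toType, card_ord]
  exact (aleph0_pos.trans_le (aleph0_le_aleph _)).ne'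

/-- The element of the universe representing an ordinal. -/
noncomputable def toM (a : Ordinal.{0}) : MM :=
  if h : a < type (α := MM) (· < ·) then enum (α := MM) (· < ·) ⟨a, h⟩ else Classical.arbitrary MM

theorem tau_toM {a : Ordinal.{0}} (h : a < ω_ (ω + ω)) : tau (toM a) = a := by
  have h' : a < type (α := MM) (· < ·) := by rw [type_MM]; exact h
  unfold toM tau
  rw [dif_pos h']
  exact typein_enum _ _

/-- Injections of ordinals into their cardinals. -/
theorem exists_inj : ∃ e : Ordinal.{0} → Ordinal.{0} → Ordinal.{0}, ∀ a,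
    (∀ b < a, e a b < a.card.ord) ∧ ∀ b < a, ∀ c < a, e a b = e a c → b = c := by
  have h : ∀ a : Ordinal.{0}, ∃ f : Ordinal.{0} → Ordinal.{0},
      (∀ b < a, f b < a.card.ord) ∧ ∀ b < a, ∀ c < a, f b = f c → b = c := by
    intro a
    have h1 : #(Iio a) = #(Iio a.card.ord) := by
      rw [Cardinal.mk_Iio_ordinal, Cardinal.mk_Iio_ordinal, card_ord]
    obtain ⟨g⟩ := Cardinal.eq.1 h1
    refine ⟨fun b => if hb : b ∈ Iio a then (g ⟨b, hb⟩).1 else 0, ?_, ?_⟩
    · intro b hb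
      beta_reduce
      rw [dif_pos (show b ∈ Iio a from hb)]
      exact (g ⟨b, hb⟩).2
    · intro b hb c hc hbc
      beta_reduce at hbc
      rw [dif_pos (show b ∈ Iio a from hb), dif_pos (show c ∈ Iio a from hc)] at hbc
      have := g.injective (Subtype.ext hbc)
      exact congrArg Subtype.val this
  choose e he using h
  exact ⟨e, he⟩

/-- Initial segments of a closed set are not larger than its part below the previous cardinal. -/
theorem initial_le {e : Ordinal.{0} → Ordinal.{0} → Ordinal.{0}}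
    (he : ∀ a, (∀ b < a, e a b < a.card.ord) ∧ ∀ b < a, ∀ c < a, e a b = e a c → b = c)
    {X : Set MM} (hX : ∀ x ∈ X, ∀ y ∈ X, toM (e (tau x) (tau y)) ∈ X) {o : Ordinal.{0}}
    (ho : o ≤ ω + ω) {y : MM} (hy : y ∈ X) (hyo : tau y < ω_ (o + 1)) :
    #{x | x ∈ X ∧ x < y} ≤ #{x | x ∈ X ∧ tau x < ω_ o} := by
  have h1 : ∀ x, x < y → e (tau y) (tau x) < ω_ o := by
    intro x hx
    refine ((he (tau y)).1 _ (tau_lt_tau.2 hx)).trans_le ?_
    rw [← ord_aleph, ord_le_ord]
    rw [lt_omega_iff_card_lt, aleph_add_one, Order.lt_succ_iff] at hyo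
    exact hyo
  have h2 : ∀ x, x < y → tau (toM (e (tau y) (tau x))) = e (tau y) (tau x) := by
    intro x hx
    apply tau_toM
    refine (h1 x hx).trans_le ?_
    rw [omega_le_omega]
    exact ho
  refine mk_le_of_injective (f := fun x : {x | x ∈ X ∧ x < y} =>
    (⟨toM (e (tau y) (tau x.1)), hX y hy x.1 x.2.1, by
      rw [h2 _ x.2.2]; exact h1 _ x.2.2⟩ : {x | x ∈ X ∧ tau x < ω_ o})) ?_
  intro x z hxz
  have h3 : toM (e (tau y) (tau x.1)) = toM (e (tau y) (tau z.1)) := congrArg Subtype.val hxz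
  have h4 : e (tau y) (tau x.1) = e (tau y) (tau z.1) := by
    rw [← h2 _ x.2.2, ← h2 _ z.2.2, h3]
  have h5 := (he (tau y)).2 _ (tau_lt_tau.2 x.2.2) _ (tau_lt_tau.2 z.2.2) h4
  exact Subtype.ext (tau_inj h5)

theorem exists_level (x : MM) : ∃ k : ℕ, tau x < ω_ (ω + (k : Ordinal)) := by
  have h := tau_lt x
  have hl : Order.IsSuccLimit ((ω : Ordinal.{0}) + ω) := by
    exact isSuccLimit_add _ isSuccLimit_omega0
  obtain ⟨c, hc, hxc⟩ := (isNormal_omega.lt_iff_exists_lt hl).1 h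
  have h1 : ∃ k : ℕ, c ≤ ω + (k : Ordinal) := by
    by_contra hcon
    push Not at hcon
    apply absurd hc
    rw [not_lt]
    have hl2 : Order.IsSuccLimit (ω : Ordinal.{0}) := isSuccLimit_omega0
    rw [add_le_iff_of_isSuccLimit hl2]
    intro b hb
    obtain ⟨k, rfl⟩ := lt_omega0.1 hb
    exact (hcon k).le
  obtain ⟨k, hk⟩ := h1
  exact ⟨k, hxc.trans_le (omega_le_omega.2 hk)⟩

/-- The jump. -/
theorem exists_jump {X : Set MM} {n m : ℕ} (hX : #X = ℵ_ ω) (hn : n ≤ m)
    (hX0 : #{x | x ∈ X ∧ tau x < ω_ ω} = ℵ_ (n : Ordinal)) :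
    ∃ k : ℕ, #{x | x ∈ X ∧ tau x < ω_ (ω + (k : Ordinal))} ≤ ℵ_ (m : Ordinal) ∧
      ℵ_ (m : Ordinal) < #{x | x ∈ X ∧ tau x < ω_ (ω + (k : Ordinal) + 1)} := by
  classical
  have hex : ∃ k : ℕ, ℵ_ (m : Ordinal) < #{x | x ∈ X ∧ tau x < ω_ (ω + (k : Ordinal))} := by
    by_contra hcon
    push Not at hcon
    have h1 := iUnion_le (m := m) (J := ℕ) (by rw [mk_nat]; exact aleph0_le_aleph _)
      (fun k => {x | x ∈ X ∧ tau x < ω_ (ω + (k : Ordinal))}) hcon
    have h2 : #X ≤ ℵ_ (m : Ordinal) := by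
      refine le_trans (mk_le_mk_of_subset ?_) h1
      intro x hx
      obtain ⟨k, hk⟩ := exists_level x
      exact mem_iUnion.2 ⟨k, hx, hk⟩
    rw [hX, aleph_le_aleph] at h2
    exact absurd (nat_lt_omega0 m) (not_lt.2 h2)
  have hk := Nat.find_spec hex
  have hk0 : Nat.find hex ≠ 0 := by
    intro h0
    rw [h0, Nat.cast_zero, add_zero, hX0, aleph_lt_aleph] at hk
    exact absurd hk (not_lt.2 (by exact_mod_cast hn))
  obtain ⟨k, hkk⟩ := Nat.exists_eq_succ_of_ne_zero hk0
  refine ⟨k, ?_, ?_⟩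
  · have := Nat.find_min hex (m := k) (by omega)
    exact not_lt.1 this
  · rw [hkk] at hk
    have e : (ω : Ordinal.{0}) + ((k.succ : ℕ) : Ordinal) = ω + (k : Ordinal) + 1 := by
      rw [add_assoc]
      push_cast
      rfl
    rwa [e] at hk

end Pool.Agent.Lib.MP_a264d8_lc
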