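import Pool.Agent.Lib.MP_a264d8_lc.Pull3

/-!
Chang's Conjecture at `ℵ_(ω+ω)` implies instances of Chang's Conjecture for pairs of consecutive
cardinals.
-/

namespace Pool.Agent.Lib.MP_a264d8_lc

open Cardinal Order Ordinal FirstOrder FirstOrder.Language

section transfer

variable {κ : Cardinal.{0}}

/-- The ordinal represented by an element. -/
noncomputable def tp (x : κ.ord.ToType) : Ordinal.{0} := typein (α := κ.ord.ToType) (· < ·) x

theorem tp_lt (x : κ.ord.ToType) : tp x < κ.ord := by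
  have h := typein_lt_type (α := κ.ord.ToType) (· < ·) x
  rwa [type_toType] at h

theorem tp_inj {x y : κ.ord.ToType} (h : tp x = tp y) : x = y := (typein_inj _).1 h

/-- The element representing an ordinal. -/
noncomputable def fr (κ : Cardinal.{0}) [Nonempty κ.ord.ToType] (a : Ordinal.{0}) : κ.ord.ToType :=
  if h : a < type (α := κ.ord.ToType) (· < ·) then enum (α := κ.ord.ToType) (· < ·) ⟨a, h⟩
    else Classical.arbitrary _

theorem tp_fr [Nonempty κ.ord.ToType] {a : Ordinal.{0}} (h : a < κ.ord) : tp (fr κ a) = a := by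
  have h' : a < type (α := κ.ord.ToType) (· < ·) := by rw [type_toType]; exact h
  unfold fr tp
  rw [dif_pos h']
  exact typein_enum _ _

theorem fr_tp [Nonempty κ.ord.ToType] (x : κ.ord.ToType) : fr κ (tp x) = x :=
  tp_inj (tp_fr (tp_lt x))

theorem card_transfer [Nonempty κ.ord.ToType] (hκ : κ ≤ ℵ_ (ω + ω)) (X : Set MM) {a : Ordinal.{0}}
    (ha : a ≤ κ.ord) : #{x : κ.ord.ToType | toM (tp x) ∈ X ∧ tp x < a} =
      #{y : MM | y ∈ X ∧ tau y < a} := by
  have hle : κ.ord ≤ ω_ (ω + ω) := by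
    rw [← ord_aleph]
    exact ord_le_ord.2 hκ
  have h1 : ∀ x : κ.ord.ToType, tau (toM (tp x)) = tp x :=
    fun x => tau_toM ((tp_lt x).trans_le hle)
  refine mk_congr ⟨fun x => ⟨toM (tp x.1), x.2.1, by rw [h1]; exact x.2.2⟩,
    fun y => ⟨fr κ (tau y.1), ?_, ?_⟩, ?_, ?_⟩
  · rw [tp_fr (y.2.2.trans_le ha)]
    have : toM (tau y.1) = y.1 := tau_inj (tau_toM (tau_lt y.1))
    rw [this]
    exact y.2.1
  · rw [tp_fr (y.2.2.trans_le ha)]
    exact y.2.2
  · intro x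
    apply Subtype.ext
    show fr κ (tau (toM (tp x.1))) = x.1
    rw [h1, fr_tp]
  · intro y
    apply Subtype.ext
    show toM (tp (fr κ (tau y.1))) = y.1
    rw [tp_fr (y.2.2.trans_le ha)]
    exact tau_inj (tau_toM (tau_lt y.1))

end transfer

/-- For every `m ≥ n` there is `k ≥ m - n` with `(ℵ_(ω+k+1), ℵ_(ω+k)) ↠ (ℵ_(m+1), ℵ_m)`. -/
theorem local_chang {n : ℕ} (h : ChangConj (ℵ_ (ω + ω)) (ℵ_ ω) (ℵ_ ω) (ℵ_ (n : Ordinal)))
    (m : ℕ) (hm : n ≤ m) : ∃ k : ℕ, m ≤ n + k ∧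
      ChangConj (ℵ_ (ω + (k : Ordinal) + 1)) (ℵ_ (ω + (k : Ordinal))) (ℵ_ ((m : Ordinal) + 1))
        (ℵ_ (m : Ordinal)) := by
  classical
  by_contra hcon
  push Not at hcon
  have H : ∀ k : {k : ℕ // m ≤ n + k}, ∃ (L : FirstOrder.Language.{0, 0}) (P : L.Relations 1)
      (str : L.Structure (ℵ_ ((ω : Ordinal.{0}) + ((k.1 : ℕ) : Ordinal) + 1)).ord.ToType),
      L.card ≤ ℵ₀ ∧ ∀ X : L.ElementarySubstructure
        (ℵ_ ((ω : Ordinal.{0}) + ((k.1 : ℕ) : Ordinal) + 1)).ord.ToType,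
        ¬ (#X = ℵ_ ((m : Ordinal) + 1) ∧ #{x : X // typein (α :=
          (ℵ_ ((ω : Ordinal.{0}) + ((k.1 : ℕ) : Ordinal) + 1)).ord.ToType) (· < ·)
            (x : (ℵ_ ((ω : Ordinal.{0}) + ((k.1 : ℕ) : Ordinal) + 1)).ord.ToType) <
              (ℵ_ ((ω : Ordinal.{0}) + ((k.1 : ℕ) : Ordinal))).ord} = ℵ_ (m : Ordinal)) := by
    intro k
    have h1 := hcon k.1 k.2
    unfold ChangConj at h1
    by_contra h2
    apply h1
    intro L P str hL _
    by_contra h3
    apply h2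
    refine ⟨L, P, str, hL, fun X hX => h3 ⟨X, hX⟩⟩
  choose L P str hL hX using H
  have hne : ∀ k : {k : ℕ // m ≤ n + k},
      Nonempty (ℵ_ ((ω : Ordinal.{0}) + ((k.1 : ℕ) : Ordinal) + 1)).ord.ToType := by
    intro k
    rw [← Cardinal.mk_ne_zero_iff, mk_toType, card_ord]
    exact (aleph0_pos.trans_le (aleph0_le_aleph _)).ne'
  obtain ⟨e, he⟩ := exists_inj
  have hF2 : ∀ j, Countable (Fn2 j) := by
    intro j
    have h1 : Countable (Σ l, Fn2 l) := by
      have h2 := card_Lg2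
      change #((Σ l, Fn2 l) ⊕ (Σ l, Rl2 l)) ≤ ℵ₀ at h2
      have h3 : Countable ((Σ l, Fn2 l) ⊕ (Σ l, Rl2 l)) := mk_le_aleph0_iff.1 h2
      exact Function.Injective.countable (f := fun x : (Σ l, Fn2 l) =>
        (Sum.inl x : (Σ l, Fn2 l) ⊕ (Σ l, Rl2 l))) Sum.inl_injective
    exact Function.Injective.countable (f := fun f => (⟨j, f⟩ : Σ l, Fn2 l)) sigma_mk_injective
  let I : ℕ → Type := fun j =>
    (Σ k : {k : ℕ // m ≤ n + k}, ((L k).sum (L k).skolem₁).Functions j) ⊕ Fn2 j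
  have hI : Countable (Σ j, I j) := by
    have h1 : ∀ j, Countable (I j) := by
      intro j
      have h2 : ∀ k, Countable (((L k).sum (L k).skolem₁).Functions j) :=
        fun k => countable_sk (L k) (hL k) j
      have h3 := hF2 j
      infer_instance
    infer_instance
  let F : ∀ j, I j → (Fin j → MM) → MM := fun j i v => match i with
    | Sum.inl p => toM (tp (@sk _ (hne p.1) (L p.1) (str p.1) j p.2
        (fun i => @fr _ (hne p.1) (tau (v i)))))
    | Sum.inr f => (strLg2 (fun _ x => x) (fun _ x y => toM (e (tau x) (tau y)))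
        (fun _ : MM => True)).funMap f v
  obtain ⟨X, hX1, hX2, hX3⟩ := exists_closed3 h I hI F
  have eord : (ℵ_ (ω : Ordinal.{0})).ord = ω_ ω := ord_aleph _
  have hX2' : #{x | x ∈ X ∧ tau x < ω_ ω} = ℵ_ (n : Ordinal) := by
    refine Eq.trans ?_ hX2
    simp only [eord]
    rfl
  have hXe : ∀ x ∈ X, ∀ y ∈ X, toM (e (tau x) (tau y)) ∈ X := by
    intro x hx y hy
    have h1 := hX3 2 (Sum.inr (Fn2.bin 0)) ![x, y] (by
      intro i
      fin_cases i
      · exact hx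
      · exact hy)
    exact h1
  obtain ⟨k, hk1, hk2⟩ := exists_jump (m := m) hX1 hm hX2'
  have hk : m ≤ n + k := by
    have h1 := growth he hXe hX2' (k + 1)
    have e1 : (ω : Ordinal.{0}) + ((k + 1 : ℕ) : Ordinal) = ω + (k : Ordinal) + 1 := by
      rw [add_assoc]
      push_cast
      rfl
    rw [e1] at h1
    have h2 := hk2.trans_le h1
    rw [aleph_lt_aleph] at h2
    have h3 : m < n + (k + 1) := by exact_mod_cast h2
    omega
  have hseg : ∀ y, y ∈ X ∧ tau y < ω_ (ω + (k : Ordinal) + 1) →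
      #{x | x ∈ X ∧ x < y} ≤ #{x | x ∈ X ∧ tau x < ω_ (ω + (k : Ordinal))} := fun y hy =>
    initial_le he hXe (add_le_add_right (natCast_lt_omega0 k).le _) hy.1 hy.2
  have hgrow : ∀ j : ℕ, #{x | x ∈ X ∧ tau x < ω_ (ω + (k : Ordinal))} ≤ ℵ_ (j : Ordinal) →
      #{x | x ∈ X ∧ tau x < ω_ (ω + (k : Ordinal) + 1)} ≤ ℵ_ ((j + 1 : ℕ) : Ordinal) := by
    intro j hj
    apply mk_le_of_seg
    intro y hy
    refine le_trans ?_ ((hseg y hy).trans hj)
    apply mk_le_mk_of_subset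
    intro x hx
    exact ⟨hx.1.1, hx.2⟩
  have hb : #{x | x ∈ X ∧ tau x < ω_ (ω + (k : Ordinal) + 1)} = ℵ_ ((m : Ordinal) + 1) := by
    apply le_antisymm
    · have := hgrow m hk1
      push_cast at this
      exact this
    · rw [aleph_add_one, Order.succ_le_iff]
      exact hk2
  have ha : #{x | x ∈ X ∧ tau x < ω_ (ω + (k : Ordinal))} = ℵ_ (m : Ordinal) := by
    apply le_antisymm hk1
    cases m with
    | zero =>
      have h1 : #{x | x ∈ X ∧ tau x < ω_ ω} ≤ #{x | x ∈ X ∧ tau x < ω_ (ω + (k : Ordinal))} := by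
        apply mk_le_mk_of_subset
        intro x hx
        exact ⟨hx.1, hx.2.trans_le (omega_le_level k)⟩
      refine le_trans ?_ h1
      rw [hX2', aleph_le_aleph]
      simp
    | succ j =>
      by_contra hlt
      rw [not_le] at hlt
      have h1 : #{x | x ∈ X ∧ tau x < ω_ (ω + (k : Ordinal))} ≤ ℵ_ (j : Ordinal) := by
        have e1 : ((j + 1 : ℕ) : Ordinal.{0}) = (j : Ordinal) + 1 := by push_cast; rfl
        rw [e1, aleph_add_one, Order.lt_succ_iff] at hlt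
        exact hlt
      exact absurd hk2 (not_lt.2 (hgrow j h1))
  -- the elementary substructure
  have hne' := hne ⟨k, hk⟩
  set κ : Cardinal.{0} := ℵ_ ((ω : Ordinal.{0}) + (k : Ordinal) + 1) with hκ
  have hκle : κ ≤ ℵ_ (ω + ω) := by
    rw [hκ, aleph_le_aleph, add_assoc]
    apply add_le_add_right
    have : (k : Ordinal.{0}) + 1 = ((k + 1 : ℕ) : Ordinal.{0}) := by push_cast; rfl
    rw [this]
    exact (natCast_lt_omega0 _).le
  have hκo : κ.ord = ω_ (ω + (k : Ordinal) + 1) := ord_aleph _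
  have hle : κ.ord ≤ ω_ (ω + ω) := by
    rw [← ord_aleph]
    exact ord_le_ord.2 hκle
  have hstr := str ⟨k, hk⟩
  obtain ⟨S, hS⟩ := @elem_of_sk κ.ord.ToType hne' (L ⟨k, hk⟩) (str ⟨k, hk⟩)
    {x | toM (tp x) ∈ X} (by
      intro j f v hv
      have h1 := hX3 j (Sum.inl ⟨⟨k, hk⟩, f⟩) (fun i => toM (tp (v i))) hv
      have h2 : (fun i => fr κ (tau (toM (tp (v i))))) = v := by
        funext i
        rw [tau_toM ((tp_lt (v i)).trans_le hle), fr_tp]
      have h3 : F j (Sum.inl ⟨⟨k, hk⟩, f⟩) (fun i => toM (tp (v i))) =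
          toM (tp (@sk _ hne' (L ⟨k, hk⟩) (str ⟨k, hk⟩) j f
            (fun i => fr κ (tau (toM (tp (v i))))))) := rfl
      rw [h3, h2] at h1
      exact h1)
  apply hX ⟨k, hk⟩ S
  constructor
  · rw [← hb, ← hκo, ← card_transfer hκle X le_rfl]
    refine mk_congr (Equiv.subtypeEquivRight fun x => ?_)
    rw [hS x]
    exact ⟨fun h => ⟨h, tp_lt x⟩, fun h => h.1⟩
  · have hlo : (ℵ_ ((ω : Ordinal.{0}) + (k : Ordinal))).ord = ω_ (ω + (k : Ordinal)) := ord_aleph _
    rw [← ha, ← hlo, ← card_transfer hκle X (a := (ℵ_ ((ω : Ordinal.{0}) + (k : Ordinal))).ord)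
      (ord_le_ord.2 (aleph_le_aleph.2 le_self_add))]
    refine mk_congr ⟨fun x => ⟨x.1.1, (hS x.1.1).1 x.1.2, x.2⟩,
      fun x => ⟨⟨x.1, (hS x.1).2 x.2.1⟩, x.2.2⟩, ?_, ?_⟩
    · intro x; rfl
    · intro x; rfl

end Pool.Agent.Lib.MP_a264d8_lc
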