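import Pool.Agent.Lib.MP_a264d8_lc.Jump

/-!
Chang's Conjecture at `ℵ_(ω+ω)` bounds the cofinalities of the products `∏ ω_i` modulo filters.
-/

namespace Pool.Agent.Lib.MP_a264d8_lc

open Cardinal Order Set Ordinal Filter

theorem omega_lt_of_nat (i : ℕ) : ω_ (i : Ordinal.{0}) < ω_ ω :=
  omega_lt_omega.2 (nat_lt_omega0 i)

theorem omega_le_level (k : ℕ) : ω_ (ω : Ordinal.{0}) ≤ ω_ (ω + (k : Ordinal)) :=
  omega_le_omega.2 le_self_add

theorem level_le (k : ℕ) : ω_ ((ω : Ordinal.{0}) + (k : Ordinal)) ≤ ω_ (ω + ω) :=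
  omega_le_omega.2 (add_le_add_right (nat_lt_omega0 k).le _)

/-- Products of the `ω_i` modulo filters have unbounded families of size below `ℵ_(ω+ω)`. -/
theorem pcf_bound {n : ℕ} (h : ChangConj (ℵ_ (ω + ω)) (ℵ_ ω) (ℵ_ ω) (ℵ_ (n : Ordinal))) :
    ∃ k : ℕ, ∀ U : Filter ℕ, U ≤ Filter.cofinite → U.NeBot →
      ∃ (J : Type) (G : J → ℕ → Ordinal.{0}), #J ≤ ℵ_ (ω + (k : Ordinal)) ∧
        (∀ a i, G a i < ω_ (i : Ordinal)) ∧
        ∀ g : ℕ → Ordinal.{0}, (∀ i, g i < ω_ (i : Ordinal)) → ¬ ∀ a, ∀ᶠ i in U, G a i < g i := by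
  classical
  by_contra hcon
  push Not at hcon
  choose U hU hNe hdir using hcon
  choose f hf1 hf2 hf3 using fun k : ℕ => exists_obedient (ω + (k : Ordinal)) (U k) (hU k) (hdir k)
  obtain ⟨e, he⟩ := exists_inj
  obtain ⟨X, hX1, hX2, hX3, hX4⟩ := exists_closed h
    (fun j x => toM (f j.unpair.1 (tau x) j.unpair.2)) (fun x y => toM (e (tau x) (tau y)))
  have eord : (ℵ_ (ω : Ordinal.{0})).ord = ω_ ω := ord_aleph _
  have hX2' : #{x | x ∈ X ∧ tau x < ω_ ω} = ℵ_ (n : Ordinal) := by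
    refine Eq.trans ?_ hX2
    simp only [eord]
    rfl
  obtain ⟨k, hk1, hk2⟩ := exists_jump (m := max n 3) hX1 (le_max_left _ _) hX2'
  set m := max n 3 with hm
  have h3m : ℵ_ 3 ≤ ℵ_ (m : Ordinal.{0}) := by
    rw [aleph_le_aleph]
    exact_mod_cast le_max_right n 3
  set A : Set MM := {x | x ∈ X ∧ tau x < ω_ (ω + (k : Ordinal) + 1)} with hA
  have hseg : ∀ y ∈ A, #{x | x ∈ X ∧ x < y} ≤ ℵ_ (m : Ordinal) := by
    intro y hy
    exact (initial_le he hX4 (add_le_add_right (nat_lt_omega0 k).le _) hy.1 hy.2).trans hk1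
  -- small families are bounded
  have hbound : ∀ (J : Type), #J ≤ ℵ_ (m : Ordinal) → ∀ g : J → Ordinal.{0},
      (∀ j, ∃ y ∈ tau '' A, g j < y) → ∃ y ∈ tau '' A, ∀ j, g j < y := by
    intro J hJ g hg
    by_contra hcon
    push Not at hcon
    have h1 : ∀ j, ∃ y ∈ A, g j < tau y := by
      intro j
      obtain ⟨_, ⟨y, hy, rfl⟩, hj⟩ := hg j
      exact ⟨y, hy, hj⟩
    choose y hy hgy using h1
    have h2 := iUnion_le hJ (fun j => {x | x ∈ X ∧ x < y j}) (fun j => hseg _ (hy j))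
    refine absurd (hk2.trans_le ?_) (not_lt.2 h2)
    apply mk_le_mk_of_subset
    intro x hx
    obtain ⟨j, hj⟩ := hcon _ ⟨x, hx, rfl⟩
    exact mem_iUnion.2 ⟨j, hx.1, tau_lt_tau.1 (hj.trans_lt (hgy j))⟩
  -- covering
  obtain ⟨I, c, hI, hc, hcov⟩ := cover m MM {x | x ∈ X ∧ tau x < ω_ ω} (by
    rw [hX2', aleph_le_aleph]
    exact_mod_cast le_max_left n 3)
  have hval : ∀ (x : MM) (i : ℕ), tau (toM (f k (tau x) i)) = f k (tau x) i := by
    intro x i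
    apply tau_toM
    exact (hf1 k _ i).trans ((omega_lt_of_nat i).trans_le
      (omega_le_omega.2 le_self_add))
  have hR : ∀ x ∈ A, ∃ i, ∀ l, toM (f k (tau x) l) ∈ c i := by
    intro x hx
    apply hcov
    intro l
    refine ⟨?_, ?_⟩
    · have := hX3 (Nat.pair k l) x hx.1
      rwa [Nat.unpair_pair] at this
    · rw [hval]
      exact (hf1 k _ l).trans (omega_lt_of_nat l)
  obtain ⟨i, hi⟩ := exists_fibre hI A hk2 (fun x i => ∀ l, toM (f k (tau x) l) ∈ c i) hR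
  have hcof : ℵ_ 3 ≤ Order.cof (Om 2) := by rw [cof_Om2]
  have hcof0 : ℵ₀ < Order.cof (Om 2) := by
    refine lt_of_lt_of_le ?_ hcof
    rw [← aleph_zero, aleph_lt_aleph]
    norm_num
  obtain ⟨S, C, hC1, hC2, hC3⟩ := club_guessing (W := Om 2) hcof
  have hAne : A.Nonempty := by
    rw [Set.nonempty_iff_ne_empty]
    intro h0
    rw [h0, mk_eq_zero] at hk2
    exact absurd hk2 (not_lt.2 zero_le)
  have hYlt : ∀ η : Ordinal.{0}, (∃ y ∈ tau '' A, η < y) → η < ω_ (ω + (k : Ordinal) + 1) := by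
    rintro η ⟨_, ⟨y, hy, rfl⟩, hη⟩
    exact hη.trans hy.2
  have := hNe k
  refine core hcof0 C hC1 hC2 hC3 (tau '' A) (hAne.image _)
    (hbound _ (by rw [mk_Om2]; exact h3m))
    (hbound _ ((mk_set_le S).trans (by rw [mk_Om2]; exact h3m))) (f k) (U k) ?_ ?_
    (tau '' {x | x ∈ A ∧ ∀ l, toM (f k (tau x) l) ∈ c i}) ?_ ?_ (tau '' (c i)) ((hc i).image _) ?_
  · intro ξ η hξη hη
    exact hf2 k ξ η hξη (hYlt η hη)
  · intro δ _ hδ
    exact hf3 k δ hδ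
  · rintro _ ⟨x, hx, rfl⟩
    exact ⟨x, hx.1, rfl⟩
  · rintro _ ⟨y, hy, rfl⟩
    by_contra hcon
    push Not at hcon
    have h1 : #({x | x ∈ X ∧ x < y} ∪ {y} : Set MM) ≤ ℵ_ (m : Ordinal) := by
      refine (mk_union_le _ _).trans ?_
      rw [mk_singleton]
      exact add_le_of_le (aleph0_le_aleph _) (hseg y hy)
        (one_lt_aleph0.le.trans (aleph0_le_aleph _))
    refine absurd (hi.trans_le ?_) (not_lt.2 h1)
    apply mk_le_mk_of_subset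
    intro x hx
    have h2 := hcon _ ⟨x, hx, rfl⟩
    rcases h2.lt_or_eq with h3 | h3
    · exact Or.inl ⟨hx.1.1, tau_lt_tau.1 h3⟩
    · exact Or.inr (tau_inj h3)
  · rintro _ ⟨x, hx, rfl⟩ l
    exact ⟨_, hx.2 l, hval x l⟩

/-- The bound for ultraproducts. -/
theorem ultra_bound {n : ℕ} (h : ChangConj (ℵ_ (ω + ω)) (ℵ_ ω) (ℵ_ ω) (ℵ_ (n : Ordinal))) :
    ∃ k : ℕ, ∀ U : Ultrafilter ℕ, (U : Filter ℕ) ≤ Filter.cofinite →
      ultraCof U ≤ ℵ_ (ω + (k : Ordinal)) := by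
  obtain ⟨k, hk⟩ := pcf_bound h
  refine ⟨k, fun U hU => ?_⟩
  obtain ⟨J, G, hJ, hG, hun⟩ := hk U hU inferInstance
  have htype : ∀ i : ℕ, type (α := (ℵ_ (i : Ordinal.{0})).ord.ToType) (· < ·) = ω_ (i : Ordinal) := by
    intro i
    rw [type_toType, ord_aleph]
  let F : J → ∀ i : ℕ, (ℵ_ (i : Ordinal.{0})).ord.ToType := fun a i =>
    enum (α := (ℵ_ (i : Ordinal.{0})).ord.ToType) (· < ·) ⟨G a i, by
      show G a i < _
      rw [htype i]; exact hG a i⟩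
  refine (csInf_le' ?_).trans (mk_range_le.trans hJ : #(range F) ≤ _)
  refine ⟨range F, rfl, fun g => ?_⟩
  have h1 := hun (fun i => typein (α := (ℵ_ (i : Ordinal.{0})).ord.ToType) (· < ·) (g i)) (fun i => by
    rw [← htype i]
    exact typein_lt_type _ _)
  push Not at h1
  obtain ⟨a, ha⟩ := h1
  refine ⟨F a, ⟨a, rfl⟩, ?_⟩
  filter_upwards [ha] with i hi
  rw [← not_lt, ← typein_lt_typein (α := (ℵ_ (i : Ordinal.{0})).ord.ToType) (· < ·), not_lt]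
  refine hi.trans (le_of_eq ?_)
  exact (typein_enum (α := (ℵ_ (i : Ordinal.{0})).ord.ToType) (· < ·) _).symm

theorem exists_nat_le {c : Cardinal.{0}} (h : c < ℵ_ ω) : ∃ m : ℕ, c ≤ ℵ_ (m : Ordinal) := by
  obtain ⟨a, ha, hca⟩ := (isNormal_aleph.lt_iff_exists_lt isSuccLimit_omega0).1 h
  obtain ⟨m, rfl⟩ := lt_omega0.1 ha
  exact ⟨m, hca.le⟩

theorem arith1 {n : ℕ} (h : ChangConj (ℵ_ (ω + ω)) (ℵ_ ω) (ℵ_ ω) (ℵ_ (n : Ordinal)))
    (hc : 2 ^ ℵ₀ < ℵ_ (ω : Ordinal.{0})) : ℵ_ (ω : Ordinal.{0}) ^ ℵ₀ < ℵ_ (ω + ω) := by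
  by_contra hcon
  rw [not_lt] at hcon
  have hB : #{x : MM | tau x < ω_ ω} = ℵ_ ω := by
    have hlt : ω_ (ω : Ordinal.{0}) < ω_ (ω + ω) := omega_lt_omega.2 (by
      exact lt_add_of_pos_right _ omega0_pos)
    have h1 := card_typein (α := MM) (r := (· < ·)) (toM (ω_ ω))
    have h2 : typein (α := MM) (· < ·) (toM (ω_ ω)) = ω_ ω := tau_toM hlt
    rw [h2, card_omega] at h1
    have h3 : {x : MM | tau x < ω_ ω} = {x : MM | x < toM (ω_ ω)} := by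
      ext x
      show tau x < ω_ ω ↔ x < toM (ω_ ω)
      rw [← tau_lt_tau, tau_toM hlt]
    rw [h3]
    exact h1.symm
  have h1 : #MM ≤ #(ℕ → {x : MM | tau x < ω_ ω}) := by
    rw [mk_toType, card_ord]
    refine hcon.trans (le_of_eq ?_)
    rw [← hB]
    simp
  obtain ⟨j⟩ : Nonempty (MM ↪ (ℕ → {x : MM | tau x < ω_ ω})) := h1
  obtain ⟨X, hX1, hX2, hX3, -⟩ := exists_closed h (fun i x => (j x i).1) (fun x _ => x)
  have eord : (ℵ_ (ω : Ordinal.{0})).ord = ω_ ω := ord_aleph _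
  have hX2' : #{x | x ∈ X ∧ tau x < ω_ ω} = ℵ_ (n : Ordinal) := by
    refine Eq.trans ?_ hX2
    simp only [eord]
    rfl
  obtain ⟨m, hm⟩ := exists_nat_le (c := max (2 ^ ℵ₀) (ℵ_ (n : Ordinal))) (max_lt hc
    (aleph_lt_aleph.2 (nat_lt_omega0 n)))
  have h2 : #X ≤ #(ℕ → {x | x ∈ X ∧ tau x < ω_ ω}) := by
    refine mk_le_of_injective (f := fun x : X => fun i =>
      (⟨(j x.1 i).1, hX3 i x.1 x.2, (j x.1 i).2⟩ : {x | x ∈ X ∧ tau x < ω_ ω})) ?_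
    intro x y hxy
    apply Subtype.ext
    apply j.injective
    funext i
    apply Subtype.ext
    have h5 := congrFun hxy i
    exact congrArg (fun z : {x | x ∈ X ∧ tau x < ω_ ω} => z.1) h5
  have h3 : #(ℕ → {x | x ∈ X ∧ tau x < ω_ ω}) ≤ ℵ_ (m : Ordinal) :=
    card_seq_le ((le_max_left _ _).trans hm) (hX2'.le.trans ((le_max_right _ _).trans hm))
  have h4 := h2.trans h3
  rw [hX1, aleph_le_aleph] at h4
  exact absurd (nat_lt_omega0 m) (not_lt.2 h4)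

theorem arith2 {n : ℕ} (h : ChangConj (ℵ_ (ω + ω)) (ℵ_ ω) (ℵ_ ω) (ℵ_ (n : Ordinal)))
    (hs : ∀ i : ℕ, 2 ^ ℵ_ (i : Ordinal.{0}) < ℵ_ (ω : Ordinal.{0})) :
    2 ^ ℵ_ (ω : Ordinal.{0}) < ℵ_ (ω + ω) := by
  have h0 : 2 ^ ℵ₀ < ℵ_ (ω : Ordinal.{0}) := by
    have := hs 0
    simpa using this
  refine lt_of_le_of_lt ?_ (arith1 h h0)
  have h1 : ℵ_ (ω : Ordinal.{0}) ≤ Cardinal.sum fun i : ℕ => ℵ_ (i : Ordinal.{0}) := by
    by_contra hcon
    rw [not_le] at hcon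
    obtain ⟨m, hm⟩ := exists_nat_le hcon
    have h2 := (Cardinal.le_sum (fun i : ℕ => ℵ_ (i : Ordinal.{0})) (m + 1)).trans hm
    rw [aleph_le_aleph] at h2
    exact absurd h2 (not_le.2 (by exact_mod_cast Nat.lt_succ_self m))
  calc (2 : Cardinal.{0}) ^ ℵ_ (ω : Ordinal.{0}) ≤ 2 ^ Cardinal.sum fun i : ℕ => ℵ_ (i : Ordinal.{0}) :=
        Cardinal.power_le_power_left two_ne_zero h1
    _ = Cardinal.prod fun i : ℕ => 2 ^ ℵ_ (i : Ordinal.{0}) := Cardinal.power_sum _ _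
    _ ≤ Cardinal.prod fun _ : ℕ => ℵ_ (ω : Ordinal.{0}) := Cardinal.prod_le_prod _ _ fun i => (hs i).le
    _ = ℵ_ (ω : Ordinal.{0}) ^ ℵ₀ := by
      rw [Cardinal.prod_const']
      simp

end Pool.Agent.Lib.MP_a264d8_lc
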