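import Pool.Agent.Lib.MP_a264d8_lc.Sq2

/-!
Chang's Conjecture at `ℵ_(ω+ω)` refutes `□` at infinitely many `ℵ_(ω+k)`.
-/

namespace Pool.Agent.Lib.MP_a264d8_lc

open Cardinal Order Set Ordinal

/-- A well-ordered set whose proper initial segments have size at most `ℵ_j` has size at most
`ℵ_(j+1)`. -/
theorem mk_le_of_seg {j : ℕ} (Z : Set MM)
    (h : ∀ y ∈ Z, #{x | x ∈ Z ∧ x < y} ≤ ℵ_ (j : Ordinal)) :
    #Z ≤ ℵ_ ((j + 1 : ℕ) : Ordinal) := by
  by_contra hcon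
  rw [not_le] at hcon
  have hc : (type (α := Z) (· < ·)).card = #Z := card_type _
  have h1 : (ℵ_ ((j + 1 : ℕ) : Ordinal.{0})).ord < type (α := Z) (· < ·) := by
    refine lt_of_le_of_ne (ord_le.2 (by rw [hc]; exact hcon.le)) ?_
    intro he
    rw [← he, card_ord] at hc
    exact hcon.ne hc
  obtain ⟨y, hy⟩ := typein_surj (α := Z) (· < ·) h1
  have h2 := card_typein (α := Z) (r := (· < ·)) y
  have h3 : #{x : Z // x < y} ≤ #{x | x ∈ Z ∧ x < y.1} := by
    refine mk_le_of_injective (f := fun x : {x : Z // x < y} =>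
      (⟨x.1.1, x.1.2, x.2⟩ : {x | x ∈ Z ∧ x < y.1})) ?_
    intro a b hab
    have := congrArg Subtype.val hab
    exact Subtype.ext (Subtype.ext this)
  have h4 := h3.trans (h y.1 y.2)
  have h5 : #{x : Z // x < y} = ℵ_ ((j + 1 : ℕ) : Ordinal.{0}) := by
    rw [← card_ord (ℵ_ ((j + 1 : ℕ) : Ordinal.{0})), ← hy]
    exact h2.symm
  rw [h5, aleph_le_aleph] at h4
  exact absurd h4 (not_le.2 (by exact_mod_cast Nat.lt_succ_self j))

/-- The part of a closed set below `ω_(ω+k)` has size at most `ℵ_(n+k)`. -/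
theorem growth {e : Ordinal.{0} → Ordinal.{0} → Ordinal.{0}}
    (he : ∀ a, (∀ b < a, e a b < a.card.ord) ∧ ∀ b < a, ∀ c < a, e a b = e a c → b = c)
    {X : Set MM} (hX : ∀ x ∈ X, ∀ y ∈ X, toM (e (tau x) (tau y)) ∈ X) {n : ℕ}
    (hn : #{x | x ∈ X ∧ tau x < ω_ ω} = ℵ_ (n : Ordinal)) (k : ℕ) :
    #{x | x ∈ X ∧ tau x < ω_ (ω + (k : Ordinal))} ≤ ℵ_ ((n + k : ℕ) : Ordinal) := by
  induction k with
  | zero =>
    have h0 : (ω : Ordinal.{0}) + ((0 : ℕ) : Ordinal) = ω := by simp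
    rw [h0, hn, add_zero]
  | succ k ih =>
    have e1 : (ω : Ordinal.{0}) + ((k + 1 : ℕ) : Ordinal) = ω + (k : Ordinal) + 1 := by
      rw [add_assoc]
      push_cast
      rfl
    rw [e1, ← add_assoc]
    apply mk_le_of_seg
    intro y hy
    refine le_trans ?_ ((initial_le he hX (o := ω + (k : Ordinal))
      (add_le_add_right (natCast_lt_omega0 k).le _) hy.1 hy.2).trans ih)
    apply mk_le_mk_of_subset
    intro x hx
    exact ⟨hx.1.1, hx.2⟩

/-- `□` fails at infinitely many `ℵ_(ω+k)`. -/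
theorem square_fails {n : ℕ} (h : ChangConj (ℵ_ (ω + ω)) (ℵ_ ω) (ℵ_ ω) (ℵ_ (n : Ordinal))) :
    {k : ℕ | ¬ Square (ℵ_ (ω + (k : Ordinal.{0})))}.Infinite := by
  classical
  intro hfin
  obtain ⟨k0, hk0⟩ := hfin.bddAbove
  have hsq : ∀ k : ℕ, ∃ C : Ordinal.{0} → Set Ordinal.{0}, k0 < k →
      ∀ a < ω_ (ω + (k : Ordinal) + 1), Order.IsSuccLimit a →
      (∀ c ∈ C a, c < a) ∧ (∀ b < a, ∃ c ∈ C a, b < c) ∧
      (∃ g : Ordinal.{0} → Ordinal.{0}, StrictMonoOn g (C a) ∧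
        ∀ c ∈ C a, g c < ω_ (ω + (k : Ordinal))) ∧
      (∀ b < a, LimPt (C a) b → C b = C a ∩ Set.Iio b) := by
    intro k
    by_cases hk : k0 < k
    · have h1 : Square (ℵ_ (ω + (k : Ordinal.{0}))) := by
        by_contra hcon
        exact absurd (hk0 hcon) (not_le.2 hk)
      obtain ⟨C, hC⟩ := h1
      refine ⟨C, fun _ a ha hal => ?_⟩
      have e1 : (Order.succ (ℵ_ (ω + (k : Ordinal.{0})))).ord = ω_ (ω + (k : Ordinal) + 1) := by
        rw [← ord_aleph, aleph_add_one]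
      rw [← e1] at ha
      obtain ⟨h1, h2, _, ⟨g, hg1, hg2⟩, h4⟩ := hC a ha hal
      refine ⟨h1, h2, ⟨g, hg1, ?_⟩, h4⟩
      rw [← ord_aleph]
      exact hg2
    · exact ⟨fun _ => ∅, fun h => absurd h hk⟩
  choose Cc hCc using hsq
  obtain ⟨e, he⟩ := exists_inj
  obtain ⟨X, hX1, hX2, hX3, hX4⟩ := exists_closed2 h (fun _ x => toM (pd (tau x)))
    (fun j x y => toM (if j.unpair.1 = 0 then e (tau x) (tau y) else
      if j.unpair.1 = 1 then nx (Cc j.unpair.2 (tau x)) (tau y) else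
        rk (Cc j.unpair.2 (tau x)) (tau y)))
  have eord : (ℵ_ (ω : Ordinal.{0})).ord = ω_ ω := ord_aleph _
  have hX2' : #{x | x ∈ X ∧ tau x < ω_ ω} = ℵ_ (n : Ordinal) := by
    refine Eq.trans ?_ hX2
    simp only [eord]
    rfl
  have hXe : ∀ x ∈ X, ∀ y ∈ X, toM (e (tau x) (tau y)) ∈ X := by
    intro x hx y hy
    have := hX4 (Nat.pair 0 0) x hx y hy
    simpa using this
  have hXn : ∀ k : ℕ, ∀ x ∈ X, ∀ y ∈ X, toM (nx (Cc k (tau x)) (tau y)) ∈ X := by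
    intro k x hx y hy
    have := hX4 (Nat.pair 1 k) x hx y hy
    simpa using this
  have hXr : ∀ k : ℕ, ∀ x ∈ X, ∀ y ∈ X, toM (rk (Cc k (tau x)) (tau y)) ∈ X := by
    intro k x hx y hy
    have := hX4 (Nat.pair 2 k) x hx y hy
    simpa using this
  obtain ⟨k, hk1, hk2⟩ := exists_jump (m := n + (k0 + 1)) hX1 (Nat.le_add_right _ _) hX2'
  have hk : k0 < k := by
    by_contra hcon
    rw [not_lt] at hcon
    have h1 := growth he hXe hX2' (k + 1)
    have e1 : (ω : Ordinal.{0}) + ((k + 1 : ℕ) : Ordinal) = ω + (k : Ordinal) + 1 := by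
      rw [add_assoc]
      push_cast
      rfl
    rw [e1] at h1
    have h2 := hk2.trans_le h1
    rw [aleph_lt_aleph] at h2
    have h3 : n + (k0 + 1) < n + (k + 1) := by exact_mod_cast h2
    omega
  refine square_contra (k := k) (m := n + (k0 + 1)) (hCc k hk) (hXr k) (hXn k)
    (fun x hx => hX3 0 x hx) hX1.le hk1 hk2 ?_
  intro y hy hyo
  exact (initial_le he hXe (add_le_add_right (natCast_lt_omega0 k).le _) hy hyo).trans hk1

end Pool.Agent.Lib.MP_a264d8_lc
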