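import Pool.Agent.Lib.MP_a264d8_lc.Pull2
import Pool.Agent.Lib.MP_a264d8_lc.Sq3

/-!
From Chang's Conjecture to a set closed under countably many finitary functions; elementary
substructures from closure under Skolem functions.
-/

namespace Pool.Agent.Lib.MP_a264d8_lc

open Cardinal Ordinal FirstOrder FirstOrder.Language

/-- The language with the function symbols `I`. -/
def Lg3 (I : ℕ → Type) : FirstOrder.Language.{0, 0} := ⟨I, Rl2⟩

theorem card_Lg3 (I : ℕ → Type) (hI : Countable (Σ n, I n)) : (Lg3 I).card ≤ ℵ₀ := by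
  have h2 : Countable (Σ l, Rl2 l) := by
    refine Function.Injective.countable (f := fun _ => (0 : ℕ)) ?_
    rintro ⟨_, a⟩ ⟨_, b⟩ _
    cases a
    cases b
    rfl
  change #((Σ l, I l) ⊕ (Σ l, Rl2 l)) ≤ ℵ₀
  exact mk_le_aleph0

/-- The structure. -/
def strLg3 {M : Type} (I : ℕ → Type) (F : ∀ n, I n → (Fin n → M) → M) (P : M → Prop) :
    (Lg3 I).Structure M where
  funMap := fun {n} f => F n f
  RelMap := fun {n} r => match n, r with
    | _, Rl2.pr => fun v => P (v 0)

theorem exists_closed3 {κ lam μ ν : Cardinal.{0}} (h : ChangConj κ lam μ ν) (I : ℕ → Type)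
    (hI : Countable (Σ n, I n)) (F : ∀ n, I n → (Fin n → κ.ord.ToType) → κ.ord.ToType) :
    ∃ X : Set κ.ord.ToType, #X = μ ∧
      #{x | x ∈ X ∧ typein (α := κ.ord.ToType) (· < ·) x < lam.ord} = ν ∧
      ∀ n (i : I n) (v : Fin n → κ.ord.ToType), (∀ j, v j ∈ X) → F n i v ∈ X := by
  letI str := strLg3 I F (fun x => typein (α := κ.ord.ToType) (· < ·) x < lam.ord)
  obtain ⟨X, hX1, hX2⟩ := h (Lg3 I) (Rl2.pr : (Lg3 I).Relations 1) str (card_Lg3 I hI)
    (fun x => Iff.rfl)
  refine ⟨X, hX1, ?_, ?_⟩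
  · rw [← hX2]
    refine mk_congr ⟨fun x => ⟨⟨x.1, x.2.1⟩, x.2.2⟩, fun x => ⟨x.1.1, x.1.2, x.2⟩, ?_, ?_⟩
    · intro x; rfl
    · intro x; rfl
  · intro n i v hv
    exact X.toSubstructure.fun_mem (i : (Lg3 I).Functions n) v hv

/-- The functions of a structure and its Skolem functions. -/
noncomputable def sk {M : Type} [Nonempty M] (L : FirstOrder.Language.{0, 0}) (str : L.Structure M)
    {n : ℕ} (f : (L.sum L.skolem₁).Functions n) (v : Fin n → M) : M :=
  letI := str
  FirstOrder.Language.Structure.funMap f v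

theorem countable_sk (L : FirstOrder.Language.{0, 0}) (hL : L.card ≤ ℵ₀) (n : ℕ) :
    Countable ((L.sum L.skolem₁).Functions n) := by
  have h1 : #(Σ n, (L.sum L.skolem₁).Functions n) ≤ ℵ₀ :=
    (card_functions_sum_skolem₁_le (L := L)).trans (max_le le_rfl hL)
  have h2 : Countable (Σ n, (L.sum L.skolem₁).Functions n) := mk_le_aleph0_iff.1 h1
  exact Function.Injective.countable (f := fun f => (⟨n, f⟩ : Σ n, (L.sum L.skolem₁).Functions n))
    sigma_mk_injective

theorem elem_of_sk {M : Type} [Nonempty M] (L : FirstOrder.Language.{0, 0}) (str : L.Structure M)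
    (Y : Set M) (hY : ∀ (n : ℕ) (f : (L.sum L.skolem₁).Functions n) (v : Fin n → M),
      (∀ j, v j ∈ Y) → sk L str f v ∈ Y) :
    ∃ S : L.ElementarySubstructure M, ∀ x, x ∈ S ↔ x ∈ Y := by
  let T : (L.sum L.skolem₁).Substructure M := ⟨Y, fun {n} f v hv => hY n f v hv⟩
  exact ⟨T.elementarySkolem₁Reduct, fun x => Iff.rfl⟩

end Pool.Agent.Lib.MP_a264d8_lc
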