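import Pool.Agent.Lib.MP_a264d8_lc.Core

/-!
Existence of obedient sequences in `∏ ω_i` modulo a filter that is sufficiently directed.
-/

namespace Pool.Agent.Lib.MP_a264d8_lc

open Cardinal Order Set Filter Ordinal

theorem mk_Om2 : #(Om 2) = ℵ_ 3 := by
  rw [mk_Om]
  norm_num

theorem cof_Om2 : Order.cof (Om 2) = ℵ_ 3 := by
  rw [cof_Om]
  norm_num

/-- Suprema of `Om 2`-sequences below `ω_i`, `i ≥ 4`. -/
theorem iSup_lt_omega {i : ℕ} (hi : 4 ≤ i) (g : Om 2 → Ordinal.{0}) (hg : ∀ w, g w < ω_ (i : Ordinal)) :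
    ⨆ w, g w < ω_ (i : Ordinal) := by
  apply iSup_lt_of_lt_cof _ hg
  obtain ⟨j, rfl⟩ : ∃ j, i = j + 1 := ⟨i - 1, by omega⟩
  have h1 : (ω_ ((j + 1 : ℕ) : Ordinal.{0})).cof = ℵ_ ((j + 1 : ℕ) : Ordinal.{0}) := by
    have := (isRegular_aleph_add_one (j : Ordinal.{0})).cof_ord
    rw [ord_aleph] at this
    push_cast
    exact this
  rw [h1, mk_Om2]
  rw [aleph_lt_aleph]
  exact_mod_cast (by omega : 3 < j + 1)

/-- The obedient sequence. -/
theorem exists_obedient (o : Ordinal.{0}) (U : Filter ℕ) (hU : U ≤ Filter.cofinite)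
    (hdir : ∀ (ι : Type) (G : ι → ℕ → Ordinal.{0}), #ι ≤ ℵ_ o → (∀ a i, G a i < ω_ (i : Ordinal)) →
      ∃ g : ℕ → Ordinal.{0}, (∀ i, g i < ω_ (i : Ordinal)) ∧ ∀ a, ∀ᶠ i in U, G a i < g i) :
    ∃ f : Ordinal.{0} → ℕ → Ordinal.{0}, (∀ ξ i, f ξ i < ω_ (i : Ordinal)) ∧
      (∀ ξ η, ξ < η → η < ω_ (o + 1) → ∀ᶠ i in U, f ξ i < f η i) ∧
      ∀ δ : Ordinal.{0}, (∃ x : Om 2 → Ordinal.{0}, StrictMono x ∧ δ = ⨆ j, x j) →
        ∃ E : Set Ordinal.{0}, (∀ e ∈ E, e < δ) ∧ (∀ b < δ, ∃ e ∈ E, b < e) ∧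
        (∀ t ⊆ E, t.Nonempty → ∀ b, IsLUB t b → b < δ → b ∈ E) ∧
        ∀ᶠ i in U, ∀ e ∈ E, f e i ≤ f δ i := by
  classical
  -- the chosen sequences
  have hx : ∀ δ : Ordinal.{0}, ∃ x : Om 2 → Ordinal.{0},
      (∃ x : Om 2 → Ordinal.{0}, StrictMono x ∧ δ = ⨆ j, x j) → StrictMono x ∧ δ = ⨆ j, x j := by
    intro δ
    by_cases h : ∃ x : Om 2 → Ordinal.{0}, StrictMono x ∧ δ = ⨆ j, x j
    · obtain ⟨x, hx⟩ := h
      exact ⟨x, fun _ => hx⟩
    · exact ⟨fun _ => 0, fun h' => absurd h' h⟩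
  choose x hx using hx
  have hstep : ∀ (ξ : Ordinal.{0}) (r : Ordinal.{0} → ℕ → Ordinal.{0}), ∃ g : ℕ → Ordinal.{0},
      (∀ η i, r η i < ω_ (i : Ordinal)) → (∀ i, g i < ω_ (i : Ordinal)) ∧
        (ξ < ω_ (o + 1) → ∀ η < ξ, ∀ᶠ i in U, r η i < g i) ∧
        ∀ i, 4 ≤ i → ∀ w, r (cont (x ξ) w) i ≤ g i := by
    intro ξ r
    by_cases hr : ∀ η i, r η i < ω_ (i : Ordinal)
    · have h0 : ∃ g : ℕ → Ordinal.{0}, (∀ i, g i < ω_ (i : Ordinal)) ∧
          (ξ < ω_ (o + 1) → ∀ η < ξ, ∀ᶠ i in U, r η i < g i) := by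
        by_cases hξ : ξ < ω_ (o + 1)
        · have hcard : #ξ.ToType ≤ ℵ_ o := by
            rw [mk_toType, ← Order.lt_succ_iff, ← aleph_add_one, ← lt_ord, ord_aleph]
            exact hξ
          obtain ⟨g, hg1, hg2⟩ := hdir ξ.ToType (fun a => r (typein (α := ξ.ToType) (· < ·) a)) hcard
            (fun a i => hr _ i)
          refine ⟨g, hg1, fun _ η hη => ?_⟩
          have hη' : η < type (α := ξ.ToType) (· < ·) := by simpa using hη
          have h1 := hg2 (Ordinal.enum (α := ξ.ToType) (· < ·) ⟨η, hη'⟩)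
          have e : typein (α := ξ.ToType) (· < ·) (Ordinal.enum (α := ξ.ToType) (· < ·) ⟨η, hη'⟩) = η :=
            typein_enum _ _
          beta_reduce at h1
          rw [e] at h1
          exact h1
        · exact ⟨fun _ => 0, fun i => omega_pos _, fun h => absurd h hξ⟩
      obtain ⟨g, hg1, hg2⟩ := h0
      refine ⟨fun i => max (g i) (if 4 ≤ i then ⨆ w, r (cont (x ξ) w) i else 0), fun _ => ⟨?_, ?_, ?_⟩⟩
      · intro i
        apply max_lt (hg1 i)
        split_ifs with hi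
        · exact iSup_lt_omega hi _ fun w => hr _ i
        · exact omega_pos _
      · intro hξ η hη
        filter_upwards [hg2 hξ η hη] with i hi
        exact hi.trans_le (le_max_left _ _)
      · intro i hi w
        refine le_trans ?_ (le_max_right _ _)
        rw [if_pos hi]
        exact Ordinal.le_iSup (fun w => r (cont (x ξ) w) i) w
    · exact ⟨fun _ => 0, fun h => absurd h hr⟩
  choose st hst using hstep
  let F : (z : Ordinal.{0}) → ((y : Ordinal.{0}) → y < z → ℕ → Ordinal.{0}) → ℕ → Ordinal.{0} :=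
    fun z r => st z fun η => if h : η < z then r η h else fun _ => 0
  obtain ⟨f, hf⟩ : ∃ f : Ordinal.{0} → ℕ → Ordinal.{0}, ∀ ξ,
      f ξ = st ξ fun η => if η < ξ then f η else fun _ => 0 := by
    refine ⟨(wellFounded_lt (α := Ordinal.{0})).fix F, fun ξ => ?_⟩
    rw [(wellFounded_lt (α := Ordinal.{0})).fix_eq F ξ]
    change st ξ _ = st ξ _
    congr 1
  have hf0 : ∀ ξ i, f ξ i < ω_ (i : Ordinal) := by
    intro ξ
    induction ξ using WellFoundedLT.induction with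
    | ind ξ ih =>
      rw [hf ξ]
      refine (hst ξ _ ?_).1
      intro η i
      split_ifs with h
      · exact ih η h i
      · exact omega_pos _
  have hr : ∀ ξ η i, (if η < ξ then f η else fun _ => 0) i < ω_ (i : Ordinal) := by
    intro ξ η i
    split_ifs with h
    · exact hf0 η i
    · exact omega_pos _
  refine ⟨f, hf0, ?_, ?_⟩
  · intro ξ η hξη hη
    have h1 := (hst η _ (hr η)).2.1 hη ξ hξη
    rw [← hf η, if_pos hξη] at h1
    exact h1
  · intro δ hδ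
    obtain ⟨hm, hsup⟩ := hx δ hδ
    have hlt : ∀ w, cont (x δ) w < δ := by
      intro w
      obtain ⟨v, hv⟩ := exists_gt_Om 2 w
      calc cont (x δ) w ≤ x δ w := cont_le hm w
        _ < x δ v := hm hv
        _ ≤ ⨆ j, x δ j := Ordinal.le_iSup (x δ) v
        _ = δ := hsup.symm
    have hcof : ∀ b < δ, ∃ w, b < cont (x δ) w := by
      intro b hb
      rw [hsup, Ordinal.lt_iSup_iff] at hb
      obtain ⟨w, hw⟩ := hb
      obtain ⟨v, hv⟩ := exists_gt_Om 2 w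
      exact ⟨v, hw.trans (lt_cont _ hv)⟩
    refine ⟨range (cont (x δ)), ?_, ?_, ?_, ?_⟩
    · rintro _ ⟨w, rfl⟩
      exact hlt w
    · intro b hb
      obtain ⟨w, hw⟩ := hcof b hb
      exact ⟨_, ⟨w, rfl⟩, hw⟩
    · intro t ht hne b hb hbδ
      exact cont_closed hm ht hne hb (hcof b hbδ)
    · have h4 : ∀ᶠ i in U, 4 ≤ i := by
        apply hU
        rw [Nat.cofinite_eq_atTop]
        exact eventually_ge_atTop 4
      filter_upwards [h4] with i hi
      rintro _ ⟨w, rfl⟩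
      have h1 := (hst δ _ (hr δ)).2.2 i hi w
      rw [← hf δ, if_pos (hlt w)] at h1
      exact h1

end Pool.Agent.Lib.MP_a264d8_lc
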