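import Pool.Agent.Lib.MP_a264d8_lc.Defs

/-!
Definition: the simultaneous form of Chang's Conjecture at `ℵ_(ω+ω)`.
-/

namespace Pool.Agent.Lib.MP_a264d8_lc

open Cardinal Ordinal FirstOrder

/-- `Shape s c`: every structure whose universe is `ω_(ω+ω)` (the canonical well-order of that type,
in which `x` stands for the ordinal `typein (· < ·) x`), in a countable first-order language, has
an elementary substructure `X` of size `ℵ_ω` with `|X ∩ ω_a| = ℵ_(s a)` for all ordinals `a ≤ c`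
at once. -/
def Shape (s : Ordinal.{0} → ℕ) (c : Ordinal.{0}) : Prop :=
  ∀ (L : FirstOrder.Language.{0, 0}) (_ : L.Structure (ℵ_ ((ω : Ordinal.{0}) + ω)).ord.ToType),
    L.card ≤ ℵ₀ →
    ∃ X : L.ElementarySubstructure (ℵ_ ((ω : Ordinal.{0}) + ω)).ord.ToType,
      #X = ℵ_ ω ∧ ∀ a ≤ c, #{x : X // typein (α := (ℵ_ ((ω : Ordinal.{0}) + ω)).ord.ToType) (· < ·)
        (x : (ℵ_ ((ω : Ordinal.{0}) + ω)).ord.ToType) < ω_ a} = ℵ_ (s a : Ordinal)

end Pool.Agent.Lib.MP_a264d8_lc
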