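import Pool.Agent.Lib.MP_a264d8_lc.Local
import Pool.Agent.Lib.MP_a264d8_lc.ShapeDefs

/-!
Chang's Conjecture at `ℵ_(ω+ω)`: one shape for all structures.
-/

namespace Pool.Agent.Lib.MP_a264d8_lc

open Cardinal Order Ordinal FirstOrder FirstOrder.Language

/-- The part of `X` below `ω_a`. -/
def below (X : Set MM) (a : Ordinal.{0}) : Set MM := {x | x ∈ X ∧ tau x < ω_ a}

/-- Countably many finitary functions on the universe. -/
structure Sys where
  I : ℕ → Type
  hI : Countable (Σ n, I n)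
  F : ∀ n, I n → (Fin n → MM) → MM

/-- Closure of a set under a system of functions. -/
def Sys.Cl (S : Sys) (X : Set MM) : Prop :=
  ∀ (n : ℕ) (i : S.I n) (v : Fin n → MM), (∀ j, v j ∈ X) → S.F n i v ∈ X

/-- The union of countably many systems. -/
def sumSys {J : Type} [Countable J] (S : J → Sys) : Sys where
  I := fun n => Σ j, (S j).I n
  hI := by
    have h0 : ∀ j, Countable (Σ n, (S j).I n) := fun j => (S j).hI
    have h : Countable (Σ j, Σ n, (S j).I n) := inferInstance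
    refine Function.Injective.countable (f := fun x : (Σ n, Σ j, (S j).I n) =>
      (⟨x.2.1, x.1, x.2.2⟩ : Σ j, Σ n, (S j).I n)) ?_
    rintro ⟨n, j, i⟩ ⟨n', j', i'⟩ h
    cases h
    rfl
  F := fun n p v => (S p.1).F n p.2 v

/-- Every system has a closed set with the property `Q`. -/
def Good (Q : Set MM → Prop) : Prop := ∀ S : Sys, ∃ X, S.Cl X ∧ Q X

theorem Good.split {J : Type} [Countable J] {Q : Set MM → Prop} (hQ : Good Q) (S0 : Sys)
    (R : J → Set MM → Prop) (h : ∀ X, S0.Cl X → Q X → ∃ j, R j X) :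
    ∃ j, Good (fun X => Q X ∧ R j X) := by
  by_contra hcon
  have h1 : ∀ j, ∃ S : Sys, ∀ X, S.Cl X → ¬ (Q X ∧ R j X) := by
    intro j
    by_contra h2
    apply hcon
    refine ⟨j, fun S => ?_⟩
    by_contra h3
    exact h2 ⟨S, fun X hX hQR => h3 ⟨X, hX, hQR⟩⟩
  choose S hS using h1
  obtain ⟨X, hX, hXQ⟩ := hQ (sumSys (fun o : Option J => o.elim S0 S))
  have h0 : S0.Cl X := fun n i v hv => hX n ⟨none, i⟩ v hv
  obtain ⟨j, hj⟩ := h X h0 hXQ
  have h1 : (S j).Cl X := fun n i v hv => hX n ⟨some j, i⟩ v hv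
  exact hS j X h1 ⟨hXQ, hj⟩

/-- Symbols of the basic system. -/
inductive BI : ℕ → Type
  | c (i : ℕ) : BI 0
  | b : BI 2

/-- The basic system: the natural numbers and the injections `e`. -/
noncomputable def baseSys (e : Ordinal.{0} → Ordinal.{0} → Ordinal.{0}) : Sys where
  I := BI
  hI := by
    let g : (Σ l, BI l) → ℕ := fun p => match p with
      | ⟨_, BI.c j⟩ => j + 1
      | ⟨_, BI.b⟩ => 0
    refine Function.Injective.countable (f := g) ?_
    rintro ⟨_, a⟩ ⟨_, b⟩ h
    cases a with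
    | c j =>
      cases b with
      | c k =>
        have : j + 1 = k + 1 := h
        have : j = k := by omega
        subst this
        rfl
      | b => exact absurd (show j + 1 = 0 from h) (Nat.succ_ne_zero j)
    | b =>
      cases b with
      | c k => exact absurd (show 0 = k + 1 from h).symm (Nat.succ_ne_zero k)
      | b => rfl
  F := fun n f => match n, f with
    | _, BI.c j => fun _ => toM (j : Ordinal)
    | _, BI.b => fun v => toM (e (tau (v 0)) (tau (v 1)))

theorem base_const {e : Ordinal.{0} → Ordinal.{0} → Ordinal.{0}} {X : Set MM}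
    (h : (baseSys e).Cl X) (i : ℕ) : toM (i : Ordinal.{0}) ∈ X :=
  h 0 (BI.c i) (fun j => j.elim0) (fun j => j.elim0)

theorem base_e {e : Ordinal.{0} → Ordinal.{0} → Ordinal.{0}} {X : Set MM}
    (h : (baseSys e).Cl X) : ∀ x ∈ X, ∀ y ∈ X, toM (e (tau x) (tau y)) ∈ X := by
  intro x hx y hy
  have h1 := h 2 BI.b ![x, y] (by
    intro i
    fin_cases i
    · exact hx
    · exact hy)
  exact h1

theorem below_mono (X : Set MM) {a b : Ordinal.{0}} (h : a ≤ b) :
    #(below X a) ≤ #(below X b) := by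
  apply mk_le_mk_of_subset
  intro x hx
  exact ⟨hx.1, hx.2.trans_le (omega_le_omega.2 h)⟩

theorem below_zero {X : Set MM} (hX : ∀ i : ℕ, toM (i : Ordinal.{0}) ∈ X) :
    #(below X 0) = ℵ_ 0 := by
  rw [aleph_zero]
  have hω : (ω : Ordinal.{0}) ≤ ω_ (ω + ω) := by
    rw [← omega_zero]
    exact omega_le_omega.2 zero_le
  have ht : ∀ i : ℕ, tau (toM (i : Ordinal.{0})) = i := fun i =>
    tau_toM ((natCast_lt_omega0 i).trans_le hω)
  apply le_antisymm
  · have h1 : ∀ x : below X 0, ∃ i : ℕ, tau x.1 = i := by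
      intro x
      have := x.2.2
      rw [omega_zero] at this
      exact lt_omega0.1 this
    choose f hf using h1
    rw [← mk_nat]
    refine mk_le_of_injective (f := f) ?_
    intro x y hxy
    apply Subtype.ext
    apply tau_inj
    rw [hf x, hf y, hxy]
  · rw [← mk_nat]
    refine mk_le_of_injective (f := fun i : ℕ => (⟨toM (i : Ordinal.{0}), hX i, by
      rw [ht, omega_zero]; exact natCast_lt_omega0 i⟩ : below X 0)) ?_
    intro i j hij
    have h1 : toM (i : Ordinal.{0}) = toM (j : Ordinal.{0}) := congrArg Subtype.val hij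
    have h2 : (i : Ordinal.{0}) = j := by rw [← ht i, ← ht j, h1]
    exact_mod_cast h2

theorem below_succ_le {e : Ordinal.{0} → Ordinal.{0} → Ordinal.{0}}
    (he : ∀ a, (∀ b < a, e a b < a.card.ord) ∧ ∀ b < a, ∀ c < a, e a b = e a c → b = c)
    {X : Set MM} (hX : ∀ x ∈ X, ∀ y ∈ X, toM (e (tau x) (tau y)) ∈ X) {o : Ordinal.{0}}
    (ho : o ≤ ω + ω) {j : ℕ} (h : #(below X o) ≤ ℵ_ (j : Ordinal)) :
    #(below X (o + 1)) ≤ ℵ_ ((j + 1 : ℕ) : Ordinal) := by
  apply mk_le_of_seg
  intro y hy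
  refine le_trans ?_ ((initial_le he hX (o := o) ho hy.1 hy.2).trans h)
  apply mk_le_mk_of_subset
  intro x hx
  exact ⟨hx.1.1, hx.2⟩

theorem exists_index {A : Set MM} (h0 : ℵ_ 0 ≤ #A) : ∀ {j : ℕ}, #A ≤ ℵ_ (j : Ordinal) →
    ∃ l : ℕ, l ≤ j ∧ #A = ℵ_ (l : Ordinal) := by
  intro j
  induction j with
  | zero =>
    intro h
    refine ⟨0, le_rfl, le_antisymm h ?_⟩
    rw [Nat.cast_zero]
    exact h0
  | succ j ih =>
    intro h
    rcases h.eq_or_lt with h1 | h1
    · exact ⟨j + 1, le_rfl, h1⟩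
    · have e1 : ((j + 1 : ℕ) : Ordinal.{0}) = (j : Ordinal) + 1 := by push_cast; rfl
      rw [e1, aleph_add_one, Order.lt_succ_iff] at h1
      obtain ⟨l, hl, hl2⟩ := ih h1
      exact ⟨l, hl.trans (Nat.le_succ j), hl2⟩

theorem aleph_nat_inj {i j : ℕ} (h : ℵ_ (i : Ordinal.{0}) = ℵ_ (j : Ordinal.{0})) : i = j := by
  have h1 := aleph_le_aleph.1 h.le
  have h2 := aleph_le_aleph.1 h.ge
  have h3 : i ≤ j := by exact_mod_cast h1
  have h4 : j ≤ i := by exact_mod_cast h2
  omega

theorem aleph_nat_le {i j : ℕ} (h : ℵ_ (i : Ordinal.{0}) ≤ ℵ_ (j : Ordinal.{0})) : i ≤ j := by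
  have h1 := aleph_le_aleph.1 h
  exact_mod_cast h1

end Pool.Agent.Lib.MP_a264d8_lc
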