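import Pool.Agent.Lib.MP_a264d8_lc.Shape

/-!
The basic pattern: good properties.
-/

namespace Pool.Agent.Lib.MP_a264d8_lc

open Cardinal Order Ordinal FirstOrder FirstOrder.Language

/-- The pattern. -/
def Pat (n : ℕ) (t k : ℕ → ℕ) (M : ℕ) (X : Set MM) : Prop :=
  (#X = ℵ_ ω ∧ #(below X ω) = ℵ_ (n : Ordinal) ∧
    ∀ i : ℕ, #(below X (i : Ordinal)) = ℵ_ (t i : Ordinal)) ∧
    ∀ i < M, #(below X (ω + (k i : Ordinal))) = ℵ_ ((n + i : ℕ) : Ordinal) ∧
      #(below X (ω + (k i : Ordinal) + 1)) = ℵ_ ((n + i + 1 : ℕ) : Ordinal)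

theorem good_base {n : ℕ} (h : ChangConj (ℵ_ (ω + ω)) (ℵ_ ω) (ℵ_ ω) (ℵ_ (n : Ordinal))) :
    Good (fun X => #X = ℵ_ ω ∧ #(below X ω) = ℵ_ (n : Ordinal)) := by
  intro S
  obtain ⟨X, hX1, hX2, hX3⟩ := exists_closed3 h S.I S.hI S.F
  have eord : (ℵ_ (ω : Ordinal.{0})).ord = ω_ ω := ord_aleph _
  refine ⟨X, hX3, hX1, ?_⟩
  refine Eq.trans ?_ hX2
  simp only [eord]
  rfl

/-- The sizes below `ℵ_ω` are eventually constant. -/
theorem exists_low {n : ℕ} {e : Ordinal.{0} → Ordinal.{0} → Ordinal.{0}} {X : Set MM}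
    (hb : (baseSys e).Cl X) (hn : #(below X ω) = ℵ_ (n : Ordinal)) :
    ∃ f : ℕ →₀ ℕ, ∀ i : ℕ, #(below X (i : Ordinal)) = ℵ_ ((n - f i : ℕ) : Ordinal) := by
  have h0 : ∀ i : ℕ, ℵ_ 0 ≤ #(below X (i : Ordinal)) := by
    intro i
    rw [← below_zero (base_const hb)]
    exact below_mono X zero_le
  have hle : ∀ i : ℕ, #(below X (i : Ordinal)) ≤ ℵ_ (n : Ordinal) := by
    intro i
    rw [← hn]
    exact below_mono X (natCast_lt_omega0 i).le
  have h1 : ∀ i : ℕ, ∃ l : ℕ, l ≤ n ∧ #(below X (i : Ordinal)) = ℵ_ (l : Ordinal) :=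
    fun i => exists_index (h0 i) (hle i)
  choose t ht1 ht2 using h1
  have hmono : ∀ i j, i ≤ j → t i ≤ t j := by
    intro i j hij
    apply aleph_nat_le
    rw [← ht2, ← ht2]
    apply below_mono
    exact_mod_cast hij
  have hex : ∃ i, t i = n := by
    by_contra hcon
    push Not at hcon
    cases n with
    | zero => exact hcon 0 (Nat.le_zero.1 (ht1 0))
    | succ n =>
      have h2 := iUnion_le (m := n) (J := ℕ) (by rw [mk_nat]; exact aleph0_le_aleph _)
        (fun i : ℕ => below X (i : Ordinal)) (by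
          intro i
          rw [ht2, aleph_le_aleph]
          have h3 := ht1 i
          have h4 := hcon i
          have h5 : t i ≤ n := by omega
          exact_mod_cast h5)
      have h3 : #(below X ω) ≤ ℵ_ (n : Ordinal) := by
        refine le_trans (mk_le_mk_of_subset ?_) h2
        intro x hx
        have hl : Order.IsSuccLimit (ω : Ordinal.{0}) := isSuccLimit_omega0
        obtain ⟨c, hc, hxc⟩ := (isNormal_omega.lt_iff_exists_lt hl).1 hx.2
        obtain ⟨i, rfl⟩ := lt_omega0.1 hc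
        exact Set.mem_iUnion.2 ⟨i, hx.1, hxc⟩
      rw [hn] at h3
      have := aleph_nat_le h3
      omega
  obtain ⟨i0, hi0⟩ := hex
  have hfin : (Function.support (fun i => n - t i)).Finite := by
    refine (Set.finite_lt_nat i0).subset ?_
    intro i hi
    simp only [Function.mem_support] at hi
    by_contra hcon
    simp only [Set.mem_setOf_eq, not_lt] at hcon
    have := hmono i0 i hcon
    omega
  refine ⟨Finsupp.ofSupportFinite _ hfin, fun i => ?_⟩
  rw [ht2]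
  have h2 : (Finsupp.ofSupportFinite (fun i => n - t i) hfin) i = n - t i := rfl
  rw [h2, Nat.sub_sub_self (ht1 i)]

/-- A jump with exact sizes. -/
theorem exists_jump_exact {e : Ordinal.{0} → Ordinal.{0} → Ordinal.{0}}
    (he : ∀ a, (∀ b < a, e a b < a.card.ord) ∧ ∀ b < a, ∀ c < a, e a b = e a c → b = c)
    {X : Set MM} (hb : (baseSys e).Cl X) {n m : ℕ} (hX : #X = ℵ_ ω) (hn : n ≤ m)
    (hX0 : #(below X ω) = ℵ_ (n : Ordinal)) :
    ∃ k : ℕ, #(below X (ω + (k : Ordinal))) = ℵ_ (m : Ordinal) ∧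
      #(below X (ω + (k : Ordinal) + 1)) = ℵ_ ((m + 1 : ℕ) : Ordinal) := by
  obtain ⟨k, hk1, hk2⟩ := exists_jump (m := m) hX hn hX0
  change #(below X (ω + (k : Ordinal))) ≤ ℵ_ (m : Ordinal) at hk1
  change ℵ_ (m : Ordinal) < #(below X (ω + (k : Ordinal) + 1)) at hk2
  have hle : (ω : Ordinal.{0}) + (k : Ordinal) ≤ ω + ω :=
    add_le_add_right (natCast_lt_omega0 k).le _
  have hup := below_succ_le he (base_e hb) hle hk1
  have e1 : ((m + 1 : ℕ) : Ordinal.{0}) = (m : Ordinal) + 1 := by push_cast; rfl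
  refine ⟨k, ?_, ?_⟩
  · have h0 : ℵ_ 0 ≤ #(below X (ω + (k : Ordinal))) := by
      rw [← below_zero (base_const hb)]
      exact below_mono X zero_le
    obtain ⟨l, hl, hl2⟩ := exists_index h0 hk1
    have h1 := below_succ_le he (base_e hb) hle hl2.le
    have h2 := hk2.trans_le h1
    rw [aleph_lt_aleph] at h2
    have h3 : m < l + 1 := by exact_mod_cast h2
    have h4 : l = m := by omega
    rw [hl2, h4]
  · apply le_antisymm hup
    rw [e1, aleph_add_one, Order.succ_le_iff]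
    exact hk2

theorem good_low {n : ℕ} (h : ChangConj (ℵ_ (ω + ω)) (ℵ_ ω) (ℵ_ ω) (ℵ_ (n : Ordinal))) :
    ∃ t : ℕ → ℕ, Good (Pat n t (fun _ => 0) 0) := by
  obtain ⟨e, he⟩ := exists_inj
  obtain ⟨f, hf⟩ := (good_base h).split (baseSys e)
    (fun (f : ℕ →₀ ℕ) X => ∀ i : ℕ, #(below X (i : Ordinal)) = ℵ_ ((n - f i : ℕ) : Ordinal))
    (fun X hX hQ => exists_low hX hQ.2)
  refine ⟨fun i => n - f i, fun S => ?_⟩
  obtain ⟨X, hX, hQ, hR⟩ := hf S
  exact ⟨X, hX, ⟨hQ.1, hQ.2, hR⟩, fun i hi => absurd hi (Nat.not_lt_zero i)⟩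

theorem good_step {n : ℕ} {t k : ℕ → ℕ} {M : ℕ} (h : Good (Pat n t k M)) :
    ∃ c : ℕ, Good (Pat n t (Function.update k M c) (M + 1)) := by
  obtain ⟨e, he⟩ := exists_inj
  obtain ⟨c, hc⟩ := h.split (baseSys e)
    (fun (c : ℕ) X => #(below X (ω + (c : Ordinal))) = ℵ_ ((n + M : ℕ) : Ordinal) ∧
      #(below X (ω + (c : Ordinal) + 1)) = ℵ_ ((n + M + 1 : ℕ) : Ordinal))
    (fun X hX hQ => exists_jump_exact he hX hQ.1.1 (Nat.le_add_right n M) hQ.1.2.1)
  refine ⟨c, fun S => ?_⟩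
  obtain ⟨X, hX, hQ, hR⟩ := hc S
  refine ⟨X, hX, hQ.1, fun i hi => ?_⟩
  rcases Nat.lt_succ_iff_lt_or_eq.1 hi with h1 | h1
  · rw [Function.update_of_ne h1.ne]
    exact hQ.2 i h1
  · subst h1
    rw [Function.update_self]
    exact hR

/-- The uniform pattern. -/
theorem exists_pattern {n : ℕ}
    (h : ChangConj (ℵ_ (ω + ω)) (ℵ_ ω) (ℵ_ ω) (ℵ_ (n : Ordinal))) :
    ∃ t k : ℕ → ℕ, ∀ M, Good (Pat n t k M) := by
  obtain ⟨t, ht⟩ := good_low h
  let S : (M : ℕ) → {k : ℕ → ℕ // Good (Pat n t k M)} := fun M =>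
    Nat.rec (motive := fun M => {k : ℕ → ℕ // Good (Pat n t k M)}) ⟨fun _ => 0, ht⟩
      (fun M p => ⟨Function.update p.1 M (good_step p.2).choose, (good_step p.2).choose_spec⟩) M
  have hS : ∀ M, (S (M + 1)).1 = Function.update (S M).1 M (good_step (S M).2).choose :=
    fun M => rfl
  have hagree : ∀ M, ∀ i < M, (S M).1 i = (S (i + 1)).1 i := by
    intro M
    induction M with
    | zero => intro i hi; exact absurd hi (Nat.not_lt_zero i)
    | succ M ih =>
      intro i hi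
      rcases Nat.lt_succ_iff_lt_or_eq.1 hi with h1 | h1
      · rw [hS, Function.update_of_ne h1.ne]
        exact ih i h1
      · rw [h1]
  refine ⟨t, fun i => (S (i + 1)).1 i, fun M T => ?_⟩
  obtain ⟨X, hX, hP⟩ := (S M).2 T
  refine ⟨X, hX, hP.1, fun i hi => ?_⟩
  have := hP.2 i hi
  rw [hagree M i hi] at this
  exact this

end Pool.Agent.Lib.MP_a264d8_lc
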