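import Pool.Agent.Lib.MP_a264d8_lc.Shape2

/-!
From the uniform pattern to the shape.
-/

namespace Pool.Agent.Lib.MP_a264d8_lc

open Cardinal Order Ordinal FirstOrder FirstOrder.Language

theorem Pat.mono {n : ℕ} {t k : ℕ → ℕ} {M M' : ℕ} (h : M ≤ M') {X : Set MM}
    (hX : Pat n t k M' X) : Pat n t k M X :=
  ⟨hX.1, fun i hi => hX.2 i (hi.trans_le h)⟩

theorem k_strictMono {n : ℕ} {t k : ℕ → ℕ} (h : ∀ M, Good (Pat n t k M)) : StrictMono k := by
  apply strictMono_nat_of_lt_succ
  intro i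
  obtain ⟨X, -, hX⟩ := h (i + 2) (sumSys (fun j : Empty => j.elim))
  have h1 := (hX.2 i (by omega)).1
  have h2 := (hX.2 (i + 1) (by omega)).1
  by_contra hcon
  rw [not_lt] at hcon
  have h3 := below_mono X (a := ω + (k (i + 1) : Ordinal)) (b := ω + (k i : Ordinal)) (by
    apply add_le_add_right
    exact_mod_cast hcon)
  rw [h1, h2] at h3
  have := aleph_nat_le h3
  omega

theorem exists_value {n : ℕ} {t k : ℕ → ℕ} (hk : StrictMono k) (j : ℕ) :
    ∃ v : ℕ, ∀ X, Pat n t k (j + 1) X → #(below X (ω + (j : Ordinal))) = ℵ_ (v : Ordinal) := by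
  have hex : ∃ i, j ≤ k i := ⟨j, hk.le_apply⟩
  classical
  have h1 := Nat.find_spec hex
  have h2 : Nat.find hex ≤ j := Nat.find_min' hex hk.le_apply
  refine ⟨n + Nat.find hex, fun X hX => ?_⟩
  have hup : #(below X (ω + (j : Ordinal))) ≤ ℵ_ ((n + Nat.find hex : ℕ) : Ordinal) := by
    rw [← (hX.2 (Nat.find hex) (by omega)).1]
    apply below_mono
    apply add_le_add_right
    exact_mod_cast h1
  apply le_antisymm hup
  rcases Nat.eq_zero_or_pos (Nat.find hex) with h0 | h0
  · rw [h0, Nat.add_zero, ← hX.1.2.1]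
    exact below_mono X le_self_add
  · obtain ⟨i, hi⟩ := Nat.exists_eq_succ_of_ne_zero h0.ne'
    have h3 := Nat.find_min hex (m := i) (by omega)
    rw [not_le] at h3
    have e1 : n + Nat.find hex = n + i + 1 := by omega
    rw [e1, ← (hX.2 i (by omega)).2]
    apply below_mono
    rw [add_assoc]
    apply add_le_add_right
    have : (k i : Ordinal.{0}) + 1 = ((k i + 1 : ℕ) : Ordinal) := by push_cast; rfl
    rw [this]
    exact_mod_cast h3

theorem lt_add_omega {a : Ordinal.{0}} (h : a < ω + ω) :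
    (∃ i : ℕ, a = i) ∨ ∃ j : ℕ, a = ω + (j : Ordinal) := by
  rcases lt_or_ge a ω with h1 | h1
  · exact Or.inl (lt_omega0.1 h1)
  · right
    have h2 : a - ω < ω := by
      rw [Ordinal.sub_lt_of_le h1]
      exact h
    obtain ⟨j, hj⟩ := lt_omega0.1 h2
    exact ⟨j, by rw [← hj, Ordinal.add_sub_cancel_of_le h1]⟩

/-- All sets have one and the same shape, up to any level below `ω + ω`. -/
theorem exists_shape {n : ℕ}
    (h : ChangConj (ℵ_ (ω + ω)) (ℵ_ ω) (ℵ_ ω) (ℵ_ (n : Ordinal))) :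
    ∃ s : Ordinal.{0} → ℕ, s 0 = 0 ∧ s ω = n ∧
      (∀ a < ω + ω, s a ≤ s (a + 1) ∧ s (a + 1) ≤ s a + 1) ∧
      (∀ m : ℕ, ∃ a : Ordinal.{0}, a < ω + ω ∧ s a = m ∧ s (a + 1) = m + 1) ∧
      (∀ a b : Ordinal.{0}, a ≤ b → b < ω + ω → s a ≤ s b) ∧
      ∀ c < ω + ω, Good (fun X => #X = ℵ_ ω ∧ ∀ a ≤ c, #(below X a) = ℵ_ (s a : Ordinal)) := by
  classical
  obtain ⟨t, k, hP⟩ := exists_pattern h
  have hk := k_strictMono hP
  choose v hv using fun j => exists_value (n := n) (t := t) hk j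
  let s : Ordinal.{0} → ℕ := fun a =>
    if h1 : ∃ i : ℕ, a = i then t h1.choose else
      if h2 : ∃ j : ℕ, a = ω + (j : Ordinal) then v h2.choose else 0
  have hs1 : ∀ i : ℕ, s (i : Ordinal) = t i := by
    intro i
    have h1 : ∃ i' : ℕ, (i : Ordinal.{0}) = i' := ⟨i, rfl⟩
    have h2 : s (i : Ordinal) = t h1.choose := dif_pos h1
    have h3 := h1.choose_spec
    rw [h2]
    congr 1
    exact (by exact_mod_cast h3 : i = h1.choose).symm
  have hs2 : ∀ j : ℕ, s (ω + (j : Ordinal)) = v j := by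
    intro j
    have h1 : ¬ ∃ i : ℕ, (ω : Ordinal.{0}) + (j : Ordinal) = i := by
      rintro ⟨i, hi⟩
      have h3 : (ω : Ordinal.{0}) ≤ (i : Ordinal) := by
        rw [← hi]
        exact le_self_add
      exact absurd (natCast_lt_omega0 i) (not_lt.2 h3)
    have h2 : ∃ j' : ℕ, (ω : Ordinal.{0}) + (j : Ordinal) = ω + (j' : Ordinal) := ⟨j, rfl⟩
    have h3 : s (ω + (j : Ordinal)) = v h2.choose := by
      show (if h1 : ∃ i : ℕ, (ω : Ordinal.{0}) + (j : Ordinal) = i then t h1.choose else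
        if h2 : ∃ j' : ℕ, (ω : Ordinal.{0}) + (j : Ordinal) = ω + (j' : Ordinal) then v h2.choose
          else 0) = _
      rw [dif_neg h1, dif_pos h2]
    have h4 := h2.choose_spec
    rw [h3]
    congr 1
    have h5 := add_left_cancel h4
    exact (by exact_mod_cast h5 : j = h2.choose).symm
  have hval : ∀ (J : ℕ) (X : Set MM), Pat n t k (J + 1) X → ∀ a ≤ ω + (J : Ordinal),
      #(below X a) = ℵ_ (s a : Ordinal) := by
    intro J X hX a ha
    have ha' : a < ω + ω := ha.trans_lt (add_lt_add_right (natCast_lt_omega0 J) _)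
    rcases lt_add_omega ha' with ⟨i, rfl⟩ | ⟨j, rfl⟩
    · rw [hs1]
      exact hX.1.2.2 i
    · rw [hs2]
      have hj : j ≤ J := by
        have := le_of_add_le_add_left ha
        exact_mod_cast this
      exact hv j X (hX.mono (by omega))
  have hJ : ∀ a : Ordinal.{0}, a < ω + ω → ∃ J : ℕ, a ≤ ω + (J : Ordinal) := by
    intro a ha
    rcases lt_add_omega ha with ⟨i, rfl⟩ | ⟨j, rfl⟩
    · exact ⟨0, (natCast_lt_omega0 i).le.trans le_self_add⟩
    · exact ⟨j, le_rfl⟩
  have hl2 : Order.IsSuccLimit ((ω : Ordinal.{0}) + ω) := isSuccLimit_add _ isSuccLimit_omega0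
  have hsucc : ∀ a : Ordinal.{0}, a < ω + ω → a + 1 < ω + ω := fun a ha => by
    rw [← Order.succ_eq_add_one]
    exact hl2.succ_lt ha
  obtain ⟨e, he⟩ := exists_inj
  have hmono : ∀ a b : Ordinal.{0}, a ≤ b → b < ω + ω → s a ≤ s b := by
    intro a b hab hb
    obtain ⟨J, hJb⟩ := hJ b hb
    obtain ⟨X, -, hX⟩ := hP (J + 1) (baseSys e)
    apply aleph_nat_le
    rw [← hval J X hX a (hab.trans hJb), ← hval J X hX b hJb]
    exact below_mono X hab
  have h0 : s 0 = 0 := by
    obtain ⟨X, hb, hX⟩ := hP 1 (baseSys e)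
    have h1 := hval 0 X hX 0 zero_le
    rw [below_zero (base_const hb)] at h1
    apply aleph_nat_inj
    rw [← h1, Nat.cast_zero]
  have hω : s ω = n := by
    obtain ⟨X, hb, hX⟩ := hP 1 (baseSys e)
    have h1 := hval 0 X hX ω le_self_add
    rw [hX.1.2.1] at h1
    exact (aleph_nat_inj h1).symm
  have hstep : ∀ a : Ordinal.{0}, a < ω + ω → s a ≤ s (a + 1) ∧ s (a + 1) ≤ s a + 1 := by
    intro a ha
    refine ⟨hmono a (a + 1) le_self_add (hsucc a ha), ?_⟩
    obtain ⟨J, hJa⟩ := hJ (a + 1) (hsucc a ha)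
    obtain ⟨X, hb, hX⟩ := hP (J + 1) (baseSys e)
    apply aleph_nat_le
    rw [← hval J X hX (a + 1) hJa]
    exact below_succ_le he (base_e hb) ha.le
      (hval J X hX a (le_self_add.trans hJa)).le
  refine ⟨s, h0, hω, hstep, ?_, hmono, ?_⟩
  · intro m
    rcases lt_or_ge m n with hm | hm
    · have hex : ∃ i : ℕ, m < s (i : Ordinal) := by
        obtain ⟨f, hf⟩ : ∃ f : ℕ →₀ ℕ, ∀ i : ℕ, t i = n - f i := by
          obtain ⟨X, hb, hX⟩ := hP 0 (baseSys e)
          obtain ⟨f, hf⟩ := exists_low hb hX.1.2.1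
          refine ⟨f, fun i => ?_⟩
          have h1 := hX.1.2.2 i
          rw [hf i] at h1
          exact (aleph_nat_inj h1).symm
        obtain ⟨i, hi⟩ := Infinite.exists_notMem_finset f.support
        refine ⟨i, ?_⟩
        rw [hs1, hf]
        simp only [Finsupp.mem_support_iff, not_not] at hi
        rw [hi, Nat.sub_zero]
        exact hm
      have h1 := Nat.find_spec hex
      have h2 : Nat.find hex ≠ 0 := by
        intro h3
        rw [h3, Nat.cast_zero, h0] at h1
        exact absurd h1 (Nat.not_lt_zero m)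
      obtain ⟨i, hi⟩ := Nat.exists_eq_succ_of_ne_zero h2
      have h3 := Nat.find_min hex (m := i) (by omega)
      have hiω : (i : Ordinal.{0}) < ω + ω := (natCast_lt_omega0 i).trans_le le_self_add
      have h4 := hstep i hiω
      have e1 : ((i.succ : ℕ) : Ordinal.{0}) = (i : Ordinal) + 1 := by push_cast; rfl
      rw [hi, e1] at h1
      rw [not_lt] at h3
      exact ⟨i, hiω, by omega, by omega⟩
    · have hkω : (ω : Ordinal.{0}) + (k (m - n) : Ordinal) < ω + ω :=
        add_lt_add_right (natCast_lt_omega0 _) _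
      refine ⟨ω + (k (m - n) : Ordinal), hkω, ?_, ?_⟩
      · obtain ⟨X, -, hX⟩ := hP (k (m - n) + (m - n) + 1) (baseSys e)
        have h1 := hval (k (m - n)) X (hX.mono (by omega)) _ le_rfl
        rw [(hX.2 (m - n) (by omega)).1] at h1
        have := aleph_nat_inj h1
        omega
      · obtain ⟨X, -, hX⟩ := hP (k (m - n) + 1 + (m - n) + 1) (baseSys e)
        have e1 : (ω : Ordinal.{0}) + ((k (m - n) + 1 : ℕ) : Ordinal) =
            ω + (k (m - n) : Ordinal) + 1 := by
          rw [add_assoc]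
          push_cast
          rfl
        have h1 := hval (k (m - n) + 1) X (hX.mono (by omega)) (ω + (k (m - n) : Ordinal) + 1)
          (by rw [e1])
        rw [(hX.2 (m - n) (by omega)).2] at h1
        have := aleph_nat_inj h1
        omega
  · intro c hc S
    obtain ⟨J, hJc⟩ := hJ c hc
    obtain ⟨X, hXS, hX⟩ := hP (J + 1) S
    exact ⟨X, hXS, hX.1.1, fun a ha => hval J X hX a (ha.trans hJc)⟩

end Pool.Agent.Lib.MP_a264d8_lc
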