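import Pool.Agent.Lib.MP_a264d8_lc.Shape3

/-!
From closed sets to elementary substructures.
-/

namespace Pool.Agent.Lib.MP_a264d8_lc

open Cardinal Order Ordinal FirstOrder FirstOrder.Language

/-- Every structure on `ω_b`, `b ≤ ω + ω`, has a system whose closed sets give elementary
substructures of the same sizes. -/
theorem exists_sys {b : Ordinal.{0}} (hb : b ≤ ω + ω) (L : FirstOrder.Language.{0, 0})
    (str : L.Structure (ℵ_ b).ord.ToType) (hL : L.card ≤ ℵ₀) :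
    ∃ S : Sys, ∀ X, S.Cl X → ∃ Y : L.ElementarySubstructure (ℵ_ b).ord.ToType,
      #Y = #(below X b) ∧ ∀ a ≤ b, #{x : Y // typein (α := (ℵ_ b).ord.ToType) (· < ·)
        (x : (ℵ_ b).ord.ToType) < ω_ a} = #(below X a) := by
  have hne : Nonempty (ℵ_ b).ord.ToType := by
    rw [← Cardinal.mk_ne_zero_iff, mk_toType, card_ord]
    exact (aleph0_pos.trans_le (aleph0_le_aleph _)).ne'
  have hκle : ℵ_ b ≤ ℵ_ (ω + ω) := aleph_le_aleph.2 hb
  have hκo : (ℵ_ b).ord = ω_ b := ord_aleph _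
  have hle : (ℵ_ b).ord ≤ ω_ (ω + ω) := by
    rw [← ord_aleph]
    exact ord_le_ord.2 hκle
  have hI : Countable (Σ n, (L.sum L.skolem₁).Functions n) := by
    have h2 : ∀ n, Countable ((L.sum L.skolem₁).Functions n) := fun n => countable_sk L hL n
    infer_instance
  let S : Sys :=
    { I := fun n => (L.sum L.skolem₁).Functions n
      hI := hI
      F := fun n f v => toM (tp (sk L str f (fun i => fr (ℵ_ b) (tau (v i))))) }
  refine ⟨S, fun X hX => ?_⟩
  obtain ⟨Y, hY⟩ := elem_of_sk L str {x | toM (tp x) ∈ X} (by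
      intro j f v hv
      have h1 := hX j f (fun i => toM (tp (v i))) hv
      have h2 : (fun i => fr (ℵ_ b) (tau (toM (tp (v i))))) = v := by
        funext i
        rw [tau_toM ((tp_lt (v i)).trans_le hle), fr_tp]
      have h3 : S.F j f (fun i => toM (tp (v i))) =
          toM (tp (sk L str f (fun i => fr (ℵ_ b) (tau (toM (tp (v i))))))) := rfl
      rw [h3, h2] at h1
      exact h1)
  refine ⟨Y, ?_, ?_⟩
  · have h1 := card_transfer hκle X (a := (ℵ_ b).ord) le_rfl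
    have h2 : #{y : MM | y ∈ X ∧ tau y < (ℵ_ b).ord} = #(below X b) := by
      rw [hκo]
      rfl
    rw [← h2, ← h1]
    refine mk_congr (Equiv.subtypeEquivRight fun x => ?_)
    rw [hY x]
    exact ⟨fun h => ⟨h, tp_lt x⟩, fun h => h.1⟩
  · intro a ha
    have hao : ω_ a ≤ (ℵ_ b).ord := by
      rw [hκo]
      exact omega_le_omega.2 ha
    have h1 := card_transfer hκle X hao
    have h2 : #{y : MM | y ∈ X ∧ tau y < ω_ a} = #(below X a) := rfl
    rw [← h2, ← h1]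
    refine mk_congr ⟨fun x => ⟨x.1.1, (hY x.1.1).1 x.1.2, x.2⟩,
      fun x => ⟨⟨x.1, (hY x.1).2 x.2.1⟩, x.2.2⟩, ?_, ?_⟩
    · intro x; rfl
    · intro x; rfl

theorem below_top (X : Set MM) : #(below X (ω + ω)) = #X := by
  have : below X (ω + ω) = X := by
    ext x
    exact ⟨fun h => h.1, fun h => ⟨h, tau_lt x⟩⟩
  rw [this]

/-- One shape for all structures. -/
theorem uniform_shape {n : ℕ}
    (h : ChangConj (ℵ_ (ω + ω)) (ℵ_ ω) (ℵ_ ω) (ℵ_ (n : Ordinal))) :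
    ∃ s : Ordinal.{0} → ℕ, s 0 = 0 ∧ s ω = n ∧
      (∀ a b : Ordinal.{0}, a ≤ b → b < ω + ω → s a ≤ s b) ∧
      (∀ a < ω + ω, s (a + 1) ≤ s a + 1) ∧
      (∀ m : ℕ, ∃ a : Ordinal.{0}, a < ω + ω ∧ s a = m ∧ s (a + 1) = m + 1) ∧
      (∀ c < ω + ω, Shape s c) ∧
      ∀ a b : Ordinal.{0}, a < b → b < ω + ω →
        ChangConj (ℵ_ b) (ℵ_ a) (ℵ_ (s b : Ordinal)) (ℵ_ (s a : Ordinal)) := by
  obtain ⟨s, h0, hω, hstep, hjump, hmono, hgood⟩ := exists_shape h
  refine ⟨s, h0, hω, hmono, fun a ha => (hstep a ha).2, hjump, ?_, ?_⟩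
  · intro c hc L str hL
    obtain ⟨S, hS⟩ := exists_sys (b := ω + ω) le_rfl L str hL
    obtain ⟨X, hX, hX1, hX2⟩ := hgood c hc S
    obtain ⟨Y, hY1, hY2⟩ := hS X hX
    refine ⟨Y, ?_, fun a ha => ?_⟩
    · rw [hY1, below_top, hX1]
    · rw [hY2 a (ha.trans hc.le), hX2 a ha]
  · intro a b hab hb L P str hL hP
    obtain ⟨S, hS⟩ := exists_sys hb.le L str hL
    obtain ⟨X, hX, hX1, hX2⟩ := hgood b hb S
    obtain ⟨Y, hY1, hY2⟩ := hS X hX
    refine ⟨Y, ?_, ?_⟩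
    · rw [hY1, hX2 b le_rfl]
    · rw [← hX2 a hab.le, ← hY2 a hab.le]
      have e1 : (ℵ_ a).ord = ω_ a := ord_aleph _
      rw [e1]

end Pool.Agent.Lib.MP_a264d8_lc
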