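import Pool.Agent.Lib.MP_a264d8_lc.SqDefs
import Pool.Agent.Lib.MP_a264d8_lc.Pull2
import Pool.Agent.Lib.MP_a264d8_lc.Main

/-!
Chang's Conjecture at `ℵ_(ω+ω)` refutes `□` at infinitely many `ℵ_(ω+k)`.
-/

namespace Pool.Agent.Lib.MP_a264d8_lc

open Cardinal Order Set Ordinal

/-- The order type of `A ∩ ξ`. -/
noncomputable def rk (A : Set Ordinal.{0}) (ξ : Ordinal.{0}) : Ordinal.{0} :=
  sInf {η | ∃ g : Ordinal.{0} → Ordinal.{0}, StrictMonoOn g (A ∩ Iio ξ) ∧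
    ∀ x ∈ A ∩ Iio ξ, g x < η}

theorem rk_le {A : Set Ordinal.{0}} {ξ η : Ordinal.{0}} (g : Ordinal.{0} → Ordinal.{0})
    (h1 : StrictMonoOn g (A ∩ Iio ξ)) (h2 : ∀ x ∈ A ∩ Iio ξ, g x < η) : rk A ξ ≤ η :=
  csInf_le' ⟨g, h1, h2⟩

theorem rk_spec (A : Set Ordinal.{0}) (ξ : Ordinal.{0}) :
    ∃ g : Ordinal.{0} → Ordinal.{0}, StrictMonoOn g (A ∩ Iio ξ) ∧
      ∀ x ∈ A ∩ Iio ξ, g x < rk A ξ := by
  have h : ({η | ∃ g : Ordinal.{0} → Ordinal.{0}, StrictMonoOn g (A ∩ Iio ξ) ∧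
    ∀ x ∈ A ∩ Iio ξ, g x < η}).Nonempty :=
    ⟨ξ, fun x => x, fun x _ y _ hxy => hxy, fun x hx => hx.2⟩
  exact csInf_mem h

theorem rk_mono (A : Set Ordinal.{0}) {ξ ζ : Ordinal.{0}} (h : ξ ≤ ζ) : rk A ξ ≤ rk A ζ := by
  obtain ⟨g, h1, h2⟩ := rk_spec A ζ
  have hs : A ∩ Iio ξ ⊆ A ∩ Iio ζ := fun x hx => ⟨hx.1, lt_of_lt_of_le hx.2 h⟩
  exact rk_le g (h1.mono hs) fun x hx => h2 x (hs hx)

theorem rk_lt {A : Set Ordinal.{0}} {d ζ : Ordinal.{0}} (hd : d ∈ A) (h : d < ζ) :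
    rk A d < rk A ζ := by
  obtain ⟨g, h1, h2⟩ := rk_spec A ζ
  have hs : A ∩ Iio d ⊆ A ∩ Iio ζ := fun x hx => ⟨hx.1, lt_trans hx.2 h⟩
  refine lt_of_le_of_lt (rk_le g (h1.mono hs) (η := g d) fun x hx => ?_) (h2 d ⟨hd, h⟩)
  exact h1 (hs hx) ⟨hd, h⟩ hx.2

theorem rk_congr {A B : Set Ordinal.{0}} {ξ : Ordinal.{0}} (h : A ∩ Iio ξ = B ∩ Iio ξ) :
    rk A ξ = rk B ξ := by
  unfold rk
  rw [h]

/-- The next element. -/
noncomputable def nx (A : Set Ordinal.{0}) (ξ : Ordinal.{0}) : Ordinal.{0} := sInf {c | c ∈ A ∧ ξ < c}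

theorem nx_spec {A : Set Ordinal.{0}} {ξ : Ordinal.{0}} (h : ∃ c ∈ A, ξ < c) :
    nx A ξ ∈ A ∧ ξ < nx A ξ := csInf_mem (s := {c | c ∈ A ∧ ξ < c}) h

/-- The predecessor. -/
noncomputable def pd (a : Ordinal.{0}) : Ordinal.{0} := sInf {b | a ≤ Order.succ b}

theorem pd_succ (a : Ordinal.{0}) : pd (Order.succ a) = a := by
  apply le_antisymm
  · exact csInf_le' (show Order.succ a ≤ Order.succ a from le_rfl)
  · have h := csInf_mem (s := {b : Ordinal.{0} | Order.succ a ≤ Order.succ b})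
      ⟨a, show Order.succ a ≤ Order.succ a from le_rfl⟩
    exact Order.succ_le_succ_iff.1 h

/-- The limit points of a set of size at most `ℵ_m`. -/
theorem mk_lim_le {m : ℕ} (B : Set MM) (hB : #B ≤ ℵ_ (m : Ordinal)) :
    #{y : MM | ∀ z < y, ∃ w ∈ B, z < w ∧ w < y} ≤ ℵ_ (m : Ordinal) := by
  classical
  have h1 : #(Option B) ≤ ℵ_ (m : Ordinal) := by
    rw [mk_option]
    exact add_le_of_le (aleph0_le_aleph _) hB (one_lt_aleph0.le.trans (aleph0_le_aleph _))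
  refine le_trans ?_ h1
  have hmin : ∀ y : MM, (∃ w ∈ B, y ≤ w) → ∃ w ∈ B, y ≤ w ∧ ∀ v ∈ B, y ≤ v → w ≤ v := by
    intro y hy
    have hne : ({w | w ∈ B ∧ y ≤ w} : Set MM).Nonempty := by
      obtain ⟨w, h1, h2⟩ := hy
      exact ⟨w, h1, h2⟩
    refine ⟨WellFounded.min wellFounded_lt _ hne, ?_, ?_, ?_⟩
    · exact (WellFounded.min_mem wellFounded_lt _ hne).1
    · exact (WellFounded.min_mem wellFounded_lt _ hne).2
    · intro v hv hyv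
      exact not_lt.1 (WellFounded.not_lt_min wellFounded_lt {w | w ∈ B ∧ y ≤ w}
        (show v ∈ {w | w ∈ B ∧ y ≤ w} from ⟨hv, hyv⟩))
  choose! f hf1 hf2 hf3 using hmin
  refine mk_le_of_injective (f := fun y : {y : MM | ∀ z < y, ∃ w ∈ B, z < w ∧ w < y} =>
    if h : ∃ w ∈ B, y.1 ≤ w then some (⟨f y.1, hf1 y.1 h⟩ : B) else none) ?_
  have key : ∀ y z : {y : MM | ∀ z < y, ∃ w ∈ B, z < w ∧ w < y}, y.1 < z.1 →
      (if h : ∃ w ∈ B, y.1 ≤ w then some (⟨f y.1, hf1 y.1 h⟩ : B) else none) ≠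
      (if h : ∃ w ∈ B, z.1 ≤ w then some (⟨f z.1, hf1 z.1 h⟩ : B) else none) := by
    intro y z hyz he
    obtain ⟨w, hw, h1, h2⟩ := z.2 y.1 hyz
    have hy : ∃ w ∈ B, y.1 ≤ w := ⟨w, hw, h1.le⟩
    rw [dif_pos hy] at he
    by_cases hz : ∃ w ∈ B, z.1 ≤ w
    · rw [dif_pos hz] at he
      have h3 : f y.1 = f z.1 := congrArg Subtype.val (Option.some.inj he)
      have h4 := hf3 y.1 hy w hw h1.le
      have h5 := hf2 z.1 hz
      rw [h3] at h4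
      exact absurd (h5.trans h4) (not_le.2 h2)
    · rw [dif_neg hz] at he
      exact absurd he (Option.some_ne_none _)
  intro y z hyz
  rcases lt_trichotomy y.1 z.1 with h | h | h
  · exact absurd hyz (key y z h)
  · exact Subtype.ext h
  · exact absurd hyz.symm (key z y h)

end Pool.Agent.Lib.MP_a264d8_lc
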