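import Pool.Agent.Lib.MP_a264d8_lc.Sq

/-!
A jump contradicts `□`.
-/

namespace Pool.Agent.Lib.MP_a264d8_lc

open Cardinal Order Set Ordinal

theorem square_contra {X : Set MM} {k m : ℕ} {C : Ordinal.{0} → Set Ordinal.{0}}
    (hC : ∀ a < ω_ (ω + (k : Ordinal) + 1), Order.IsSuccLimit a →
      (∀ c ∈ C a, c < a) ∧ (∀ b < a, ∃ c ∈ C a, b < c) ∧
      (∃ g : Ordinal.{0} → Ordinal.{0}, StrictMonoOn g (C a) ∧
        ∀ c ∈ C a, g c < ω_ (ω + (k : Ordinal))) ∧
      (∀ b < a, LimPt (C a) b → C b = C a ∩ Set.Iio b))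
    (hrk : ∀ x ∈ X, ∀ y ∈ X, toM (rk (C (tau x)) (tau y)) ∈ X)
    (hnx : ∀ x ∈ X, ∀ y ∈ X, toM (nx (C (tau x)) (tau y)) ∈ X)
    (hpd : ∀ x ∈ X, toM (pd (tau x)) ∈ X)
    (hXc : #X ≤ ℵ_ ω)
    (hk1 : #{x | x ∈ X ∧ tau x < ω_ (ω + (k : Ordinal))} ≤ ℵ_ (m : Ordinal))
    (hk2 : ℵ_ (m : Ordinal) < #{x | x ∈ X ∧ tau x < ω_ (ω + (k : Ordinal) + 1)})
    (hseg : ∀ y ∈ X, tau y < ω_ (ω + (k : Ordinal) + 1) →
      #{x | x ∈ X ∧ x < y} ≤ ℵ_ (m : Ordinal)) : False := by
  classical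
  set κ : Ordinal.{0} := ω_ (ω + (k : Ordinal)) with hκ
  set θ : Ordinal.{0} := ω_ (ω + (k : Ordinal) + 1) with hθ
  have hκθ : κ < θ := omega_lt_omega.2 (lt_add_one _)
  have hθM : θ < ω_ (ω + ω) := by
    apply omega_lt_omega.2
    rw [add_assoc]
    apply add_lt_add_right
    have : (k : Ordinal.{0}) + 1 = ((k + 1 : ℕ) : Ordinal.{0}) := by push_cast; rfl
    rw [this]
    exact natCast_lt_omega0 _
  set A : Set MM := {x | x ∈ X ∧ tau x < θ} with hA
  set XB : Set MM := {x | x ∈ X ∧ tau x < κ} with hXB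
  -- small families are bounded
  have hbound : ∀ (J : Type), #J ≤ ℵ_ (m : Ordinal) → ∀ g : J → Ordinal.{0},
      (∀ j, ∃ y ∈ A, g j < tau y) → ∃ y ∈ A, ∀ j, g j < tau y := by
    intro J hJ g h1
    by_contra hcon
    push Not at hcon
    choose y hy hgy using h1
    have h2 := iUnion_le hJ (fun j => {x | x ∈ X ∧ x < y j}) (fun j => hseg _ (hy j).1 (hy j).2)
    refine absurd (hk2.trans_le ?_) (not_lt.2 h2)
    apply mk_le_mk_of_subset
    intro x hx
    obtain ⟨j, hj⟩ := hcon x hx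
    exact mem_iUnion.2 ⟨j, hx.1, tau_lt_tau.1 (hj.trans_lt (hgy j))⟩
  have hAne : A.Nonempty := by
    rw [Set.nonempty_iff_ne_empty]
    intro h0
    rw [h0] at hk2
    simp at hk2
  -- the supremum
  set δ : Ordinal.{0} := ⨆ x : A, tau x.1 with hδ
  have hbdd : BddAbove (range fun x : A => tau x.1) := ⟨θ, by
    rintro _ ⟨x, rfl⟩
    exact x.2.2.le⟩
  have hex : ∀ b < δ, ∃ x ∈ A, b < tau x := by
    intro b hb
    have : Nonempty A := hAne.to_subtype
    obtain ⟨x, hx⟩ := exists_lt_of_lt_ciSup hb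
    exact ⟨x.1, x.2, hx⟩
  have hup : ∀ x ∈ A, ∃ y ∈ A, tau x < tau y := by
    intro x hx
    by_contra hcon
    push Not at hcon
    have h1 : #{z | z ∈ X ∧ z < x} ≤ ℵ_ (m : Ordinal) := hseg x hx.1 hx.2
    have h2 : #({z | z ∈ X ∧ z < x} ∪ {x} : Set MM) ≤ ℵ_ (m : Ordinal) := by
      refine (mk_union_le _ _).trans ?_
      rw [mk_singleton]
      exact add_le_of_le (aleph0_le_aleph _) h1 (one_lt_aleph0.le.trans (aleph0_le_aleph _))
    refine absurd (hk2.trans_le ?_) (not_lt.2 h2)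
    apply mk_le_mk_of_subset
    intro z hz
    rcases (hcon z hz).lt_or_eq with h3 | h3
    · exact Or.inl ⟨hz.1, tau_lt_tau.1 h3⟩
    · exact Or.inr (tau_inj h3)
  have hAδ : ∀ x ∈ A, tau x < δ := by
    intro x hx
    obtain ⟨y, hy, hxy⟩ := hup x hx
    exact hxy.trans_le (le_ciSup hbdd ⟨y, hy⟩)
  have hδθ : δ < θ := by
    apply iSup_lt_of_lt_cof
    · have h1 : θ.cof = ℵ_ (ω + (k : Ordinal) + 1) := by
        have := (isRegular_aleph_add_one (ω + (k : Ordinal.{0}))).cof_ord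
        rw [ord_aleph] at this
        exact this
      rw [h1]
      have h2 : #A ≤ #X := mk_le_mk_of_subset fun x hx => hx.1
      refine (h2.trans hXc).trans_lt ?_
      rw [aleph_lt_aleph]
      exact lt_of_le_of_lt le_self_add (lt_add_one _)
    · exact fun x => x.2.2
  have hδ0 : δ ≠ 0 := by
    obtain ⟨x, hx⟩ := hAne
    exact (lt_of_le_of_lt (zero_le) (hAδ x hx)).ne'
  have hδl : Order.IsSuccLimit δ := by
    rw [Order.isSuccLimit_iff]
    refine ⟨?_, ?_⟩
    · intro h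
      exact hδ0 (le_antisymm (h (zero_le)) (zero_le))
    · rw [Order.isSuccPrelimit_iff_succ_lt]
      intro b hb
      obtain ⟨x, hx, hbx⟩ := hex b hb
      exact (Order.succ_le_of_lt hbx).trans_lt (hAδ x hx)
  obtain ⟨hC1, hC2, hC3, hC4⟩ := hC δ hδθ hδl
  -- common limit points
  set E : Set MM := {x | tau x < δ ∧ LimPt (C δ) (tau x) ∧ LimPt (tau '' A) (tau x)} with hE
  have hEun : ∀ b < δ, ∃ x ∈ E, b < tau x := by
    intro b hb
    have h1 : ∀ c : Iio δ, ∃ d : Iio δ, c.1 < d.1 ∧ (∃ a ∈ A, c.1 < tau a ∧ tau a < d.1) ∧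
        d.1 ∈ C δ := by
      intro c
      obtain ⟨a, ha, hca⟩ := hex c.1 c.2
      obtain ⟨d, hd, had⟩ := hC2 (tau a) (hAδ a ha)
      exact ⟨⟨d, hC1 d hd⟩, hca.trans had, ⟨a, ha, hca, had⟩, hd⟩
    choose F hF1 hF2 hF3 using h1
    let s : ℕ → Iio δ := fun i => F^[i] ⟨b, hb⟩
    have hs : ∀ i, s (i + 1) = F (s i) := fun i => Function.iterate_succ_apply' F i _
    have hsb : ∀ i, ∃ y ∈ A, (s i).1 < tau y := fun i => hex _ (s i).2
    obtain ⟨y, hy, hyy⟩ := hbound ℕ (by rw [mk_nat]; exact aleph0_le_aleph _) (fun i => (s i).1) hsb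
    set α : Ordinal.{0} := ⨆ i, (s i).1 with hα
    have hαb : BddAbove (range fun i => (s i).1) := ⟨tau y, by
      rintro _ ⟨i, rfl⟩
      exact (hyy i).le⟩
    have hαδ : α < δ := lt_of_le_of_lt (ciSup_le fun i => (hyy i).le) (hAδ y hy)
    have hsα : ∀ i, (s i).1 < α := by
      intro i
      refine lt_of_lt_of_le (hF1 (s i)) ?_
      rw [← hs i]
      exact le_ciSup hαb (i + 1)
    have hα0 : α ≠ 0 := (lt_of_le_of_lt (zero_le) (hsα 0)).ne'
    have htα : tau (toM α) = α := tau_toM (hαδ.trans (hδθ.trans hθM))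
    refine ⟨toM α, ⟨?_, ?_, ?_⟩, ?_⟩
    · rw [htα]; exact hαδ
    · rw [htα]
      refine ⟨hα0, fun c hc => ?_⟩
      obtain ⟨i, hi⟩ := exists_lt_of_lt_ciSup hc
      refine ⟨(s (i + 1)).1, ?_, ?_, hsα _⟩
      · rw [hs i]; exact hF3 _
      · rw [hs i]; exact hi.trans (hF1 _)
    · rw [htα]
      refine ⟨hα0, fun c hc => ?_⟩
      obtain ⟨i, hi⟩ := exists_lt_of_lt_ciSup hc
      obtain ⟨a, ha, h1, h2⟩ := hF2 (s i)
      refine ⟨tau a, ⟨a, ha, rfl⟩, hi.trans h1, h2.trans ?_⟩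
      rw [← hs i]
      exact hsα _
    · rw [htα]
      exact hsα 0
  have hEbig : ¬ #E ≤ ℵ_ (m : Ordinal) := by
    intro h
    obtain ⟨y, hy, hyy⟩ := hbound E h (fun x => tau x.1) (fun x => hex _ x.2.1)
    obtain ⟨x, hx, hxy⟩ := hEun (tau y) (hAδ y hy)
    exact absurd (hyy ⟨x, hx⟩) (not_lt.2 hxy.le)
  apply hEbig
  -- the values
  have hrkκ : ∀ a < θ, Order.IsSuccLimit a → ∀ ξ, rk (C a) ξ ≤ κ := by
    intro a ha hal ξ
    obtain ⟨_, _, ⟨g, hg1, hg2⟩, _⟩ := hC a ha hal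
    exact rk_le g (hg1.mono inter_subset_left) fun x hx => hg2 x hx.1
  set LB : Set MM := {y : MM | ∀ z < y, ∃ w ∈ XB, z < w ∧ w < y} with hLB
  set V : Set MM := LB ∪ (XB ∪ {toM κ}) with hV
  have hVc : #V ≤ ℵ_ (m : Ordinal) := by
    refine (mk_union_le _ _).trans (add_le_of_le (aleph0_le_aleph _) (mk_lim_le XB hk1) ?_)
    refine (mk_union_le _ _).trans (add_le_of_le (aleph0_le_aleph _) hk1 ?_)
    rw [mk_singleton]
    exact one_lt_aleph0.le.trans (aleph0_le_aleph _)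
  have hκM : κ < ω_ (ω + ω) := hκθ.trans hθM
  have hval : ∀ x ∈ E, toM (rk (C δ) (tau x)) ∈ V := by
    intro x hx
    have h0 : C (tau x) = C δ ∩ Iio (tau x) := hC4 _ hx.1 hx.2.1
    have hlim : ∀ A' : Set Ordinal.{0}, LimPt A' (tau x) → Order.IsSuccLimit (tau x) := by
      intro A' h
      rw [Order.isSuccLimit_iff]
      refine ⟨fun h1 => h.1 (le_antisymm (h1 (zero_le)) (zero_le)), ?_⟩
      rw [Order.isSuccPrelimit_iff_succ_lt]
      intro b hb
      obtain ⟨d, _, h1, h2⟩ := h.2 b hb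
      exact (Order.succ_le_of_lt h1).trans_lt h2
    have hxl := hlim _ hx.2.1
    have e1 : rk (C δ) (tau x) = rk (C (tau x)) (tau x) := by
      apply rk_congr
      rw [h0]
      ext z
      simp
    have hle : rk (C (tau x)) (tau x) ≤ κ := hrkκ _ (hx.1.trans hδθ) hxl _
    rw [e1]
    by_cases hxA : x ∈ A
    · have h1 := hrk x hxA.1 x hxA.1
      rcases hle.lt_or_eq with h2 | h2
      · refine Or.inr (Or.inl ⟨h1, ?_⟩)
        rw [tau_toM (h2.trans hκM)]
        exact h2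
      · refine Or.inr (Or.inr ?_)
        rw [h2]
        rfl
    · -- the least element of `A` above `x`
      left
      have hne : ({w | w ∈ A ∧ x < w} : Set MM).Nonempty := by
        obtain ⟨w, hw, hxw⟩ := hex _ hx.1
        exact ⟨w, hw, tau_lt_tau.1 hxw⟩
      set y : MM := WellFounded.min wellFounded_lt _ hne with hy
      have hyA : y ∈ A := (WellFounded.min_mem wellFounded_lt _ hne).1
      have hxy : x < y := (WellFounded.min_mem wellFounded_lt _ hne).2
      have hmin : ∀ w ∈ A, w < y → w < x := by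
        intro w hw hwy
        by_contra hcon
        rw [not_lt] at hcon
        have h1 : x ≠ w := fun h => hxA (h ▸ hw)
        exact WellFounded.not_lt_min wellFounded_lt {w | w ∈ A ∧ x < w}
          (show w ∈ {w | w ∈ A ∧ x < w} from ⟨hw, lt_of_le_of_ne hcon h1⟩) hwy
      -- `y` is a limit
      have hyl : Order.IsSuccLimit (tau y) := by
        rw [Order.isSuccLimit_iff]
        refine ⟨fun h1 => ?_, ?_⟩
        · have h2 : tau y ≤ tau x := h1 (zero_le)  |>.trans (zero_le)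
          exact absurd (tau_lt_tau.2 hxy) (not_lt.2 h2)
        · rw [Order.isSuccPrelimit_iff_succ_lt]
          intro b hb
          by_contra hcon
          rw [not_lt] at hcon
          have h1 : tau y = Order.succ b := le_antisymm hcon (Order.succ_le_of_lt hb)
          have h2 := hpd y hyA.1
          rw [h1, pd_succ] at h2
          have h3 : tau (toM b) = b := tau_toM (hb.trans (tau_lt y))
          have h4 : toM b ∈ A := ⟨h2, by rw [h3]; exact hb.trans hyA.2⟩
          have h5 : toM b < y := by rw [← tau_lt_tau, h3]; exact hb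
          have h6 := hmin _ h4 h5
          rw [← tau_lt_tau, h3] at h6
          have h7 : tau x < Order.succ b := by rw [← h1]; exact tau_lt_tau.2 hxy
          exact absurd h6 (not_lt.2 (Order.lt_succ_iff.1 h7))
      obtain ⟨hD1, hD2, hD3, hD4⟩ := hC (tau y) hyA.2 hyl
      -- elements of `C y` in `A` below `x`
      have hnext : ∀ w ∈ A, w < x → ∃ c ∈ A, w < c ∧ c < x ∧ tau c ∈ C (tau y) := by
        intro w hw hwx
        have h1 := nx_spec (hD2 (tau w) (tau_lt_tau.2 (hwx.trans hxy)))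
        have h2 := hnx y hyA.1 w hw.1
        have h3 : nx (C (tau y)) (tau w) < tau y := hD1 _ h1.1
        have h4 : tau (toM (nx (C (tau y)) (tau w))) = nx (C (tau y)) (tau w) :=
          tau_toM (h3.trans (tau_lt y))
        have h5 : toM (nx (C (tau y)) (tau w)) ∈ A := ⟨h2, by rw [h4]; exact h3.trans hyA.2⟩
        refine ⟨toM (nx (C (tau y)) (tau w)), h5, ?_, ?_, ?_⟩
        · rw [← tau_lt_tau, h4]; exact h1.2
        · apply hmin _ h5
          rw [← tau_lt_tau, h4]; exact h3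
        · rw [h4]; exact h1.1
      have hcofinal : ∀ c < tau x, ∃ d ∈ A, c < tau d ∧ d < x ∧ tau d ∈ C (tau y) := by
        intro c hc
        obtain ⟨_, ⟨w, hw, rfl⟩, h1, h2⟩ := hx.2.2.2 c hc
        obtain ⟨d, hd, h3, h4, h5⟩ := hnext w hw (tau_lt_tau.1 h2)
        exact ⟨d, hd, h1.trans (tau_lt_tau.2 h3), h4, h5⟩
      have hlp : LimPt (C (tau y)) (tau x) := by
        refine ⟨hx.2.1.1, fun c hc => ?_⟩
        obtain ⟨d, _, h1, h2, h3⟩ := hcofinal c hc
        exact ⟨tau d, h3, h1, tau_lt_tau.2 h2⟩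
      have h6 : C (tau x) = C (tau y) ∩ Iio (tau x) := hD4 _ (tau_lt_tau.2 hxy) hlp
      have e2 : rk (C (tau x)) (tau x) = rk (C (tau y)) (tau x) := by
        apply rk_congr
        rw [h6]
        ext z
        simp
      rw [e2] at hle ⊢
      have hM : rk (C (tau y)) (tau x) < ω_ (ω + ω) := lt_of_le_of_lt hle hκM
      intro z hz
      have hz' : tau z < rk (C (tau y)) (tau x) := by
        rw [← tau_lt_tau, tau_toM hM] at hz
        exact hz
      have hc : ∃ d ∈ A, d < x ∧ tau d ∈ C (tau y) ∧ tau z < rk (C (tau y)) (tau d) := by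
        by_contra hcon
        push Not at hcon
        refine absurd hz' (not_lt.2 (rk_le (fun c => rk (C (tau y)) c) ?_ ?_))
        · intro c hc d hd hcd
          exact rk_lt hc.1 hcd
        · intro c hc
          obtain ⟨d, hd, h1, h2, h3⟩ := hcofinal c hc.2
          exact (rk_lt hc.1 h1).trans_le (hcon d hd h2 h3)
      obtain ⟨d, hd, h1, h2, h3⟩ := hc
      have h4 : rk (C (tau y)) (tau d) < rk (C (tau y)) (tau x) := rk_lt h2 (tau_lt_tau.2 h1)
      have h5 : tau (toM (rk (C (tau y)) (tau d))) = rk (C (tau y)) (tau d) :=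
        tau_toM (h4.trans hM)
      refine ⟨toM (rk (C (tau y)) (tau d)), ⟨hrk y hyA.1 d hd.1, ?_⟩, ?_, ?_⟩
      · rw [h5]; exact h4.trans_le hle
      · rw [← tau_lt_tau, h5]; exact h3
      · rw [← tau_lt_tau, h5, tau_toM hM]; exact h4
  refine le_trans ?_ hVc
  refine mk_le_of_injective (f := fun x : E => (⟨toM (rk (C δ) (tau x.1)), hval x.1 x.2⟩ : V)) ?_
  have hlt : ∀ x y : E, x.1 < y.1 → rk (C δ) (tau x.1) < rk (C δ) (tau y.1) := by
    intro x y hxy
    obtain ⟨d, hd, h1, h2⟩ := y.2.2.1.2 (tau x.1) (tau_lt_tau.2 hxy)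
    exact (rk_mono _ h1.le).trans_lt (rk_lt hd h2)
  have htau : ∀ x : E, tau (toM (rk (C δ) (tau x.1))) = rk (C δ) (tau x.1) := by
    intro x
    apply tau_toM
    exact (hrkκ δ hδθ hδl _).trans_lt hκM
  intro x y hxy
  have h1 : toM (rk (C δ) (tau x.1)) = toM (rk (C δ) (tau y.1)) := congrArg Subtype.val hxy
  have h2 : rk (C δ) (tau x.1) = rk (C δ) (tau y.1) := by rw [← htau x, ← htau y, h1]
  rcases lt_trichotomy x.1 y.1 with h | h | h
  · exact absurd h2 (hlt x y h).ne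
  · exact Subtype.ext h
  · exact absurd h2.symm (hlt y x h).ne

end Pool.Agent.Lib.MP_a264d8_lc
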