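import Pool.Agent.Lib.MP_a264d8_lc.Defs

/-!
Jensen's principle `□_κ`.
-/

namespace Pool.Agent.Lib.MP_a264d8_lc

open Cardinal Ordinal

/-- `b` is a limit point of the set `A` of ordinals. -/
def LimPt (A : Set Ordinal.{0}) (b : Ordinal.{0}) : Prop :=
  b ≠ 0 ∧ ∀ c < b, ∃ d ∈ A, c < d ∧ d < b

/-- Jensen's principle `□_κ`: there are sets `C a`, for the limit ordinals `a < κ⁺`, such that `C a` is
a closed unbounded subset of `a` of order type at most `κ` (there is a strictly increasing function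
from `C a` into `κ`) and `C b = C a ∩ b` for every limit point `b < a` of `C a`. -/
def Square (κ : Cardinal.{0}) : Prop :=
  ∃ C : Ordinal.{0} → Set Ordinal.{0}, ∀ a < (Order.succ κ).ord, Order.IsSuccLimit a →
    (∀ c ∈ C a, c < a) ∧ (∀ b < a, ∃ c ∈ C a, b < c) ∧ (∀ b < a, LimPt (C a) b → b ∈ C a) ∧
    (∃ g : Ordinal.{0} → Ordinal.{0}, StrictMonoOn g (C a) ∧ ∀ c ∈ C a, g c < κ.ord) ∧
    (∀ b < a, LimPt (C a) b → C b = C a ∩ Set.Iio b)

end Pool.Agent.Lib.MP_a264d8_lc
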